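import Mathlib
import Pool.Agent.H447.QR.Stm

/-! # Reduction of real binary quadratic forms -/

set_option autoImplicit false

namespace Pool.Agent.H597.QR.F1

open Pool.Agent.H447.QR

/-- the value at an integral vector -/
noncomputable def Qv (α β γ : ℝ) (v : ℤ × ℤ) : ℝ :=
  α * (v.1 : ℝ) ^ 2 + β * v.1 * v.2 + γ * (v.2 : ℝ) ^ 2

variable {α β γ : ℝ}

theorem bd2 (v : ℤ × ℤ) : (4 * α * γ - β ^ 2) * (v.2 : ℝ) ^ 2 ≤ 4 * α * Qv α β γ v := by
  unfold Qv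
  nlinarith [sq_nonneg (2 * α * (v.1 : ℝ) + β * v.2)]

theorem bd1 (v : ℤ × ℤ) : (4 * α * γ - β ^ 2) * (v.1 : ℝ) ^ 2 ≤ 4 * γ * Qv α β γ v := by
  unfold Qv
  nlinarith [sq_nonneg (2 * γ * (v.2 : ℝ) + β * v.1)]

theorem gpos (hα : 0 < α) (hΔ : 0 < 4 * α * γ - β ^ 2) : 0 < γ := by
  by_contra h
  push Not at h
  have : α * γ ≤ 0 := mul_nonpos_of_nonneg_of_nonpos hα.le h
  nlinarith [sq_nonneg β]

theorem Qpos (hα : 0 < α) (hΔ : 0 < 4 * α * γ - β ^ 2) {v : ℤ × ℤ} (hv : v ≠ 0) : 0 < Qv α β γ v := by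
  have h1 := bd1 (α := α) (β := β) (γ := γ) v
  have h2 := bd2 (α := α) (β := β) (γ := γ) v
  have hγ := gpos hα hΔ
  by_contra h
  push Not at h
  have h3 : (4 * α * γ - β ^ 2) * (v.1 : ℝ) ^ 2 ≤ 0 := h1.trans (by
    apply mul_nonpos_of_nonneg_of_nonpos _ h
    positivity)
  have h4 : (4 * α * γ - β ^ 2) * (v.2 : ℝ) ^ 2 ≤ 0 := h2.trans (by
    apply mul_nonpos_of_nonneg_of_nonpos _ h
    positivity)
  have h5 : (v.1 : ℝ) ^ 2 ≤ 0 := by
    by_contra h5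
    push Not at h5
    have := mul_pos hΔ h5
    linarith
  have h6 : (v.2 : ℝ) ^ 2 ≤ 0 := by
    by_contra h6
    push Not at h6
    have := mul_pos hΔ h6
    linarith
  have h7 : (v.1 : ℝ) = 0 := pow_eq_zero_iff (n := 2) (by norm_num) |>.1 (le_antisymm h5 (sq_nonneg _))
  have h8 : (v.2 : ℝ) = 0 := pow_eq_zero_iff (n := 2) (by norm_num) |>.1 (le_antisymm h6 (sq_nonneg _))
  apply hv
  ext
  · exact_mod_cast h7
  · exact_mod_cast h8

theorem abs_le_of_sq {x : ℤ} {B : ℕ} (h : (x : ℝ) ^ 2 ≤ B) : x ∈ Finset.Icc (-(B : ℤ)) B := by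
  have h1 : x ^ 2 ≤ (B : ℤ) := by exact_mod_cast h
  rw [Finset.mem_Icc]
  constructor
  · nlinarith [sq_nonneg (x + 1), sq_nonneg x]
  · nlinarith [sq_nonneg (x - 1), sq_nonneg x]

theorem exists_min (hα : 0 < α) (hΔ : 0 < 4 * α * γ - β ^ 2) :
    ∃ v : ℤ × ℤ, v ≠ 0 ∧ ∀ w : ℤ × ℤ, w ≠ 0 → Qv α β γ v ≤ Qv α β γ w := by
  have hγ := gpos hα hΔ
  obtain ⟨B, hB⟩ := exists_nat_ge (max (4 * α * α / (4 * α * γ - β ^ 2)) (4 * γ * α / (4 * α * γ - β ^ 2)))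
  set s : Set (ℤ × ℤ) := {v | v ≠ 0 ∧ Qv α β γ v ≤ α} with hs
  have hfin : s.Finite := by
    apply Set.Finite.subset ((Finset.Icc (-(B : ℤ)) B ×ˢ Finset.Icc (-(B : ℤ)) B).finite_toSet)
    intro v hv
    rw [Finset.mem_coe, Finset.mem_product]
    have h1 := bd1 (α := α) (β := β) (γ := γ) v
    have h2 := bd2 (α := α) (β := β) (γ := γ) v
    have hv2 : Qv α β γ v ≤ α := hv.2
    constructor
    · apply abs_le_of_sq
      refine le_trans ?_ ((le_max_right _ _).trans hB)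
      rw [le_div_iff₀ hΔ]
      have : 4 * γ * Qv α β γ v ≤ 4 * γ * α := by gcongr
      linarith
    · apply abs_le_of_sq
      refine le_trans ?_ ((le_max_left _ _).trans hB)
      rw [le_div_iff₀ hΔ]
      have : 4 * α * Qv α β γ v ≤ 4 * α * α := by gcongr
      linarith
  have hne : s.Nonempty := by
    refine ⟨(1, 0), ?_, ?_⟩
    · intro h
      have := congrArg Prod.fst h
      simp at this
    · unfold Qv
      simp
  obtain ⟨v, hv, hmin⟩ := Set.exists_min_image s (Qv α β γ) hfin hne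
  refine ⟨v, hv.1, fun w hw => ?_⟩
  by_cases h : Qv α β γ w ≤ α
  · exact hmin w ⟨hw, h⟩
  · push Not at h
    exact hv.2.trans h.le

theorem t_F1 : S_F1 := by
  intro α β γ hα hΔ
  obtain ⟨⟨p, r⟩, hv, hmin⟩ := exists_min hα hΔ
  have hQ := Qpos hα hΔ hv
  -- primitivity
  have hgcd : Int.gcd p r = 1 := by
    obtain ⟨d, hd⟩ : ∃ d : ℕ, d = Int.gcd p r := ⟨_, rfl⟩
    have hd1 : (d : ℤ) ∣ p := by rw [hd]; exact Int.gcd_dvd_left ..
    have hd2 : (d : ℤ) ∣ r := by rw [hd]; exact Int.gcd_dvd_right ..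
    obtain ⟨p', hp'⟩ := hd1
    obtain ⟨r', hr'⟩ := hd2
    have hv' : ((p', r') : ℤ × ℤ) ≠ 0 := by
      intro h
      have h1 : p' = 0 := congrArg Prod.fst h
      have h2 : r' = 0 := congrArg Prod.snd h
      apply hv
      rw [hp', hr', h1, h2, mul_zero]
      rfl
    have h1 := hmin (p', r') hv'
    have h2 : Qv α β γ (p, r) = (d : ℝ) ^ 2 * Qv α β γ (p', r') := by
      unfold Qv
      simp only
      rw [hp', hr']
      push_cast
      ring
    have h3 := Qpos hα hΔ hv'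
    rw [h2] at h1
    have h4 : (d : ℝ) ^ 2 ≤ 1 := by
      by_contra h
      push Not at h
      nlinarith
    have h5 : d ^ 2 ≤ 1 := by exact_mod_cast h4
    have h6 : d ≠ 0 := by
      rintro rfl
      rw [h2] at hQ
      simp at hQ
    rw [← hd]
    have : d ≤ 1 := by nlinarith [Nat.pos_of_ne_zero h6]
    omega
  obtain ⟨a, b, hab⟩ := Int.isCoprime_iff_gcd_eq_one.2 hgcd
  obtain ⟨A, hA⟩ : ∃ A : ℝ, A = α * (p : ℝ) ^ 2 + β * p * r + γ * (r : ℝ) ^ 2 := ⟨_, rfl⟩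
  have hQA : Qv α β γ (p, r) = A := by
    rw [hA]
    rfl
  rw [hQA] at hQ hmin
  -- the polar form at the first choice of the second vector
  obtain ⟨T, hT⟩ : ∃ T : ℝ, T = (2 * α * p * (-b) + β * (p * a + (-b) * r) + 2 * γ * r * a) / (2 * A) :=
    ⟨_, rfl⟩
  obtain ⟨k, hk⟩ : ∃ k : ℤ, k = -round T := ⟨_, rfl⟩
  have hround := abs_sub_round T
  obtain ⟨q, hq⟩ : ∃ q : ℤ, q = -b + k * p := ⟨_, rfl⟩
  obtain ⟨s, hs⟩ : ∃ s : ℤ, s = a + k * r := ⟨_, rfl⟩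
  have hdet : p * s - q * r = 1 := by
    rw [hq, hs]
    linear_combination hab
  obtain ⟨Bp, hBp⟩ : ∃ Bp : ℝ, Bp = 2 * α * p * q + β * (p * s + q * r) + 2 * γ * r * s := ⟨_, rfl⟩
  have hB1 : Bp = 2 * A * (T - round T) := by
    have h1 : 2 * A * T = 2 * α * p * (-b) + β * (p * a + (-b) * r) + 2 * γ * r * a := by
      rw [hT, mul_div_cancel₀]
      positivity
    have h2 : (k : ℝ) = -(round T : ℝ) := by
      rw [hk]
      push_cast
      ring
    have h3 : (q : ℝ) = -b + k * p := by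
      rw [hq]
      push_cast
      ring
    have h4 : (s : ℝ) = a + k * r := by
      rw [hs]
      push_cast
      ring
    have h5 : 2 * A * (T - round T) = 2 * A * T + 2 * A * k := by
      rw [h2]
      ring
    rw [h5, h1, hBp, h3, h4, hA]
    ring
  have hB2 : |Bp| ≤ A := by
    rw [hB1, abs_mul, abs_of_pos (by positivity : 0 < 2 * A)]
    calc 2 * A * |T - round T| ≤ 2 * A * (1 / 2) := by gcongr
      _ = A := by ring
  have hB3 : Bp ^ 2 ≤ A ^ 2 := by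
    rw [← sq_abs Bp]
    gcongr
  have hv2 : ((q, s) : ℤ × ℤ) ≠ 0 := by
    intro h
    have h1 : q = 0 := congrArg Prod.fst h
    have h2 : s = 0 := congrArg Prod.snd h
    rw [h1, h2] at hdet
    simp at hdet
  obtain ⟨Cc, hCc⟩ : ∃ Cc : ℝ, Cc = α * (q : ℝ) ^ 2 + β * q * s + γ * (s : ℝ) ^ 2 := ⟨_, rfl⟩
  have hAC : A ≤ Cc := by
    have := hmin (q, s) hv2
    rw [hCc]
    exact this
  have hdisc : 4 * A * Cc - Bp ^ 2 = 4 * α * γ - β ^ 2 := by
    have hdet' : (p : ℝ) * s - q * r = 1 := by exact_mod_cast hdet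
    have h1 : 4 * A * Cc - Bp ^ 2 = (4 * α * γ - β ^ 2) * ((p : ℝ) * s - q * r) ^ 2 := by
      rw [hA, hCc, hBp]
      ring
    rw [h1, hdet']
    ring
  refine ⟨p, q, r, s, Or.inl hdet, ?_, ?_⟩
  · rw [← hA]
    exact hQ
  · rw [← hA, ← hCc]
    nlinarith

end Pool.Agent.H597.QR.F1
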