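import Pool.Agent.H447.QR.Stm2

/-!
# Task GB: generators from representatives modulo doubles
-/

set_option autoImplicit false

open WeierstrassCurve

namespace Pool.Agent.H618.QR.GB

open Pool.Agent.H447.QR

theorem ht_pos {a b : ℚ} (P : Pt a b) : 1 ≤ Ht P := by
  rcases P with _ | ⟨X, Y, h⟩
  · exact le_rfl
  · exact le_trans X.pos (le_max_right _ _)

theorem ht_neg {a b : ℚ} (P : Pt a b) : Ht (-P) = Ht P := by
  rcases P with _ | ⟨X, Y, h⟩
  · rfl
  · rfl

theorem t_GB (h1 : S_HTD) (h2 : S_HTA) : S_GB := by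
  intro a b hd M hM
  set S : Set (Pt (a : ℚ) (b : ℚ)) := {P | Ht P ≤ C1 a b * C2 a b * M ^ 2} with hS
  have hM1 : 1 ≤ M := by
    obtain ⟨R, Q, -, hR⟩ := hM 0
    exact (ht_pos R).trans hR
  have hC1 : 1 ≤ C1 a b := by
    unfold C1
    exact Nat.succ_le_of_lt (Nat.mul_pos (by norm_num) (pow_pos (Nat.succ_pos _) _))
  have hC2 : 1 ≤ C2 a b := by
    unfold C2
    exact Nat.succ_le_of_lt (Nat.mul_pos (by norm_num) (pow_pos (Nat.succ_pos _) _))
  have hMB : M ≤ C1 a b * C2 a b * M ^ 2 := by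
    calc M = 1 * 1 * M ^ 1 := by ring
      _ ≤ C1 a b * C2 a b * M ^ 2 :=
        Nat.mul_le_mul (Nat.mul_le_mul hC1 hC2) (Nat.pow_le_pow_right hM1 (by norm_num))
  have key : ∀ n : ℕ, ∀ P : Pt (a : ℚ) (b : ℚ), Ht P = n → P ∈ AddSubgroup.closure S := by
    intro n
    induction n using Nat.strong_induction_on with
    | _ n ih =>
      intro P hP
      by_cases hle : Ht P ≤ C1 a b * C2 a b * M ^ 2
      · exact AddSubgroup.subset_closure hle
      push Not at hle
      obtain ⟨R, Q, hPR, hR⟩ := hM P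
      have hRS : R ∈ AddSubgroup.closure S := AddSubgroup.subset_closure (hR.trans hMB)
      have hQQ : Q + Q = P + -R := by
        rw [hPR]
        abel
      have e1 := h1 a b hd Q
      rw [hQQ] at e1
      have e2 := h2 a b hd P (-R)
      rw [ht_neg] at e2
      have e3 : Ht Q ^ 4 < Ht P ^ 3 := by
        calc Ht Q ^ 4 ≤ C1 a b * Ht (P + -R) := e1
          _ ≤ C1 a b * (C2 a b * (Ht P ^ 2 * Ht R ^ 2)) := Nat.mul_le_mul_left _ e2
          _ ≤ C1 a b * (C2 a b * (Ht P ^ 2 * M ^ 2)) :=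
            Nat.mul_le_mul_left _ (Nat.mul_le_mul_left _ (Nat.mul_le_mul_left _
              (Nat.pow_le_pow_left hR 2)))
          _ = C1 a b * C2 a b * M ^ 2 * Ht P ^ 2 := by ring
          _ < Ht P * Ht P ^ 2 :=
            Nat.mul_lt_mul_of_pos_right hle (pow_pos (ht_pos P) 2)
          _ = Ht P ^ 3 := by ring
      have e4 : Ht Q < Ht P := by
        by_contra hcon
        push Not at hcon
        have e5 : Ht P ^ 3 ≤ Ht Q ^ 4 :=
          (Nat.pow_le_pow_left hcon 3).trans (Nat.pow_le_pow_right (ht_pos Q) (by norm_num))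
        exact absurd e3 (not_lt.2 e5)
      have hQ : Q ∈ AddSubgroup.closure S := ih (Ht Q) (hP ▸ e4) Q rfl
      rw [hPR]
      exact AddSubgroup.add_mem _ hRS (AddSubgroup.add_mem _ hQ hQ)
  rw [eq_top_iff]
  intro P _
  exact key _ P rfl

end Pool.Agent.H618.QR.GB
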