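import Pool.Agent.H447.QR.Stm

/-!
# Project QR (helper447): G2, `InfC` is invariant under equivalence
-/

set_option autoImplicit false

open WeierstrassCurve

namespace Pool.Agent.H658.QR.G2

open Pool.Agent.H447.QR

theorem v_hom (g : Qf ℚ) (x z t : ℚ) : g.v (x * t) (z * t) = t ^ 4 * g.v x z := by
  unfold Qf.v
  ring

theorem v_div (g : Qf ℚ) (x z : ℚ) (hz : z ≠ 0) : g.v x z = z ^ 4 * g.v (x / z) 1 := by
  rw [← v_hom, div_mul_cancel₀ x hz, one_mul]

theorem sq_fin (c : ℚ) : {y : ℚ | y ^ 2 = c}.Finite := by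
  by_cases h : ∃ y0 : ℚ, y0 ^ 2 = c
  · obtain ⟨y0, hy0⟩ := h
    apply Set.Finite.subset (Set.toFinite ({y0, -y0} : Set ℚ))
    intro y hy
    have hy' : y ^ 2 = c := hy
    rw [← hy0] at hy'
    rcases sq_eq_sq_iff_eq_or_eq_neg.mp hy' with h1 | h1
    · left
      exact h1
    · right
      exact h1
  · have : {y : ℚ | y ^ 2 = c} = ∅ := by
      ext y
      constructor
      · intro hy
        exact (h ⟨y, hy⟩).elim
      · intro hy
        exact hy.elim
    rw [this]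
    exact Set.finite_empty

/-- the points which go to infinity -/
theorem bad_fin (F : ℚ → ℚ) (r s : ℚ) (hrs : r ≠ 0 ∨ s ≠ 0) :
    {p : ℚ × ℚ | p.2 ^ 2 = F p.1 ∧ r * p.1 + s = 0}.Finite := by
  by_cases hr : r = 0
  · have hs : s ≠ 0 := by
      rcases hrs with h | h
      · exact (h hr).elim
      · exact h
    have : {p : ℚ × ℚ | p.2 ^ 2 = F p.1 ∧ r * p.1 + s = 0} = ∅ := by
      ext p
      constructor
      · intro hp
        have h1 := hp.2
        rw [hr, zero_mul, zero_add] at h1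
        exact (hs h1).elim
      · intro hp
        exact hp.elim
    rw [this]
    exact Set.finite_empty
  · apply Set.Finite.subset ((Set.finite_singleton (-s / r)).prod (sq_fin (F (-s / r))))
    intro p hp
    have h1 : p.1 = -s / r := by
      rw [eq_div_iff hr]
      linarith [hp.2]
    refine Set.mk_mem_prod ?_ ?_
    · exact h1
    · show p.2 ^ 2 = F (-s / r)
      rw [← h1]
      exact hp.1

theorem one_dir (c1 : S_COV1) (g : Qf ℚ) (p q r s μ : ℚ) (hμ : μ ≠ 0) (hδ : p * s - q * r ≠ 0)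
    (h : InfC ((g.comp p q r s).smul (μ ^ 2))) : InfC g := by
  have hrs : r ≠ 0 ∨ s ≠ 0 := by
    by_contra hc
    push Not at hc
    apply hδ
    rw [hc.1, hc.2]
    ring
  have hv : ∀ x : ℚ, ((g.comp p q r s).smul (μ ^ 2)).v x 1 =
      μ ^ 2 * g.v (p * x + q) (r * x + s) := by
    intro x
    rw [(c1.2.2.2.2.1 (g.comp p q r s) (μ ^ 2) x 1).1, c1.1 g p q r s x 1, mul_one, mul_one]
  have h1 : {P : ℚ × ℚ | P.2 ^ 2 = μ ^ 2 * g.v (p * P.1 + q) (r * P.1 + s)}.Infinite := by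
    have : {P : ℚ × ℚ | P.2 ^ 2 = μ ^ 2 * g.v (p * P.1 + q) (r * P.1 + s)} =
        {P : ℚ × ℚ | P.2 ^ 2 = ((g.comp p q r s).smul (μ ^ 2)).v P.1 1} := by
      ext P
      show P.2 ^ 2 = μ ^ 2 * g.v (p * P.1 + q) (r * P.1 + s) ↔
        P.2 ^ 2 = ((g.comp p q r s).smul (μ ^ 2)).v P.1 1
      rw [hv]
    rw [this]
    exact h
  have h2 := h1.sdiff (bad_fin (fun x => μ ^ 2 * g.v (p * x + q) (r * x + s)) r s hrs)
  have hgood : ∀ P ∈ {P : ℚ × ℚ | P.2 ^ 2 = μ ^ 2 * g.v (p * P.1 + q) (r * P.1 + s)} \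
      {P : ℚ × ℚ | P.2 ^ 2 = (fun x => μ ^ 2 * g.v (p * x + q) (r * x + s)) P.1 ∧
        r * P.1 + s = 0}, P.2 ^ 2 = μ ^ 2 * g.v (p * P.1 + q) (r * P.1 + s) ∧
          r * P.1 + s ≠ 0 := by
    intro P hP
    refine ⟨hP.1, fun hz => hP.2 ⟨hP.1, hz⟩⟩
  have hinj : Set.InjOn (fun P : ℚ × ℚ => ((p * P.1 + q) / (r * P.1 + s),
      P.2 / (μ * (r * P.1 + s) ^ 2)))
      ({P : ℚ × ℚ | P.2 ^ 2 = μ ^ 2 * g.v (p * P.1 + q) (r * P.1 + s)} \
      {P : ℚ × ℚ | P.2 ^ 2 = (fun x => μ ^ 2 * g.v (p * x + q) (r * x + s)) P.1 ∧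
        r * P.1 + s = 0}) := by
    rintro ⟨x1, y1⟩ hP ⟨x2, y2⟩ hQ he
    obtain ⟨_, z1⟩ := hgood _ hP
    obtain ⟨_, z2⟩ := hgood _ hQ
    have z1' : r * x1 + s ≠ 0 := z1
    have z2' : r * x2 + s ≠ 0 := z2
    have e1 : (p * x1 + q) / (r * x1 + s) = (p * x2 + q) / (r * x2 + s) :=
      congrArg Prod.fst he
    have e2 : y1 / (μ * (r * x1 + s) ^ 2) = y2 / (μ * (r * x2 + s) ^ 2) :=
      congrArg Prod.snd he
    rw [div_eq_div_iff z1' z2'] at e1
    have e3 : (p * s - q * r) * (x1 - x2) = 0 := by linarith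
    have e4 : x1 = x2 := by
      rcases mul_eq_zero.mp e3 with h | h
      · exact (hδ h).elim
      · linarith
    subst e4
    have hne : μ * (r * x1 + s) ^ 2 ≠ 0 := mul_ne_zero hμ (pow_ne_zero 2 z1')
    have e5 : y1 = y2 := (div_left_inj' hne).mp e2
    rw [e5]
  have h3 := h2.image hinj
  apply h3.mono
  rintro P ⟨⟨x, y⟩, hP, rfl⟩
  obtain ⟨hy, hz⟩ := hgood _ hP
  have hz' : r * x + s ≠ 0 := hz
  have hy' : y ^ 2 = μ ^ 2 * g.v (p * x + q) (r * x + s) := hy
  show (y / (μ * (r * x + s) ^ 2)) ^ 2 = g.v ((p * x + q) / (r * x + s)) 1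
  rw [v_div g _ _ hz'] at hy'
  rw [div_pow, hy', div_eq_iff (pow_ne_zero 2 (mul_ne_zero hμ (pow_ne_zero 2 hz')))]
  ring

theorem t_G2 (c1 : S_COV1) : S_G2 := by
  intro g p q r s μ hμ
  have hμ0 : μ ≠ 0 := by
    intro h
    rw [h, zero_mul] at hμ
    exact zero_ne_one hμ
  have hδ0 : p * s - q * r ≠ 0 := by
    intro h
    rw [h, mul_zero] at hμ
    exact zero_ne_one hμ
  constructor
  · intro h
    -- the inverse substitution
    obtain ⟨_, _, _, ccomp, _, csmul, css, cone⟩ := c1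
    have e0 : (((g.comp p q r s).smul (μ ^ 2)).comp (s / (p * s - q * r)) (-q / (p * s - q * r))
        (-r / (p * s - q * r)) (p / (p * s - q * r))).smul ((1 / μ) ^ 2) = g := by
      rw [csmul, ccomp, css]
      have a1 : p * (s / (p * s - q * r)) + q * (-r / (p * s - q * r)) = 1 := by
        rw [← mul_div_assoc, ← mul_div_assoc, ← add_div, div_eq_one_iff_eq hδ0]
        ring
      have a2 : p * (-q / (p * s - q * r)) + q * (p / (p * s - q * r)) = 0 := by
        rw [← mul_div_assoc, ← mul_div_assoc, ← add_div, div_eq_zero_iff]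
        left
        ring
      have a3 : r * (s / (p * s - q * r)) + s * (-r / (p * s - q * r)) = 0 := by
        rw [← mul_div_assoc, ← mul_div_assoc, ← add_div, div_eq_zero_iff]
        left
        ring
      have a4 : r * (-q / (p * s - q * r)) + s * (p / (p * s - q * r)) = 1 := by
        rw [← mul_div_assoc, ← mul_div_assoc, ← add_div, div_eq_one_iff_eq hδ0]
        ring
      have a5 : (1 / μ) ^ 2 * μ ^ 2 = 1 := by
        rw [← mul_pow, one_div, inv_mul_cancel₀ hμ0, one_pow]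
      rw [a1, a2, a3, a4, a5, (cone g).1, (cone g).2]
    refine one_dir ⟨‹_›, ‹_›, ‹_›, ccomp, ‹_›, csmul, css, cone⟩
      ((g.comp p q r s).smul (μ ^ 2)) (s / (p * s - q * r)) (-q / (p * s - q * r))
        (-r / (p * s - q * r)) (p / (p * s - q * r)) (1 / μ) ?_ ?_ ?_
    · exact one_div_ne_zero hμ0
    · have : s / (p * s - q * r) * (p / (p * s - q * r)) -
          -q / (p * s - q * r) * (-r / (p * s - q * r)) = 1 / (p * s - q * r) := by
        rw [div_mul_div_comm, div_mul_div_comm, ← sub_div, div_eq_div_iff (mul_ne_zero hδ0 hδ0) hδ0]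
        ring
      rw [this]
      exact one_div_ne_zero hδ0
    · rw [e0]
      exact h
  · intro h
    exact one_dir c1 g p q r s μ hμ0 hδ0 h

end Pool.Agent.H658.QR.G2
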