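import Pool.Agent.H447.QR.Stm
import Pool.Graph.R_seed8.Helper566.FD.J7

set_option autoImplicit false
set_option linter.unusedVariables false

/-! QR-PV: `VL` is primitive recursive, `BoxC` is computable. -/

namespace Pool.Agent.H668.QR.PV

open Pool.Agent.H447.QR
open Pool.Agent.Helper566.FD.J7 (prim_int_add prim_int_mul prim_int_neg prim_int_sub prim_int_le
  prim_toNat prim_natCast prim_toNat_neg)

/-! ### integer valued primitive recursive functions -/

section

variable {α : Type} [Primcodable α]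

theorem padd {f g : α → ℤ} (hf : Primrec f) (hg : Primrec g) : Primrec (fun a => f a + g a) :=
  prim_int_add.comp hf hg

theorem pmul {f g : α → ℤ} (hf : Primrec f) (hg : Primrec g) : Primrec (fun a => f a * g a) :=
  prim_int_mul.comp hf hg

theorem psub {f g : α → ℤ} (hf : Primrec f) (hg : Primrec g) : Primrec (fun a => f a - g a) :=
  prim_int_sub.comp hf hg

theorem pneg {f : α → ℤ} (hf : Primrec f) : Primrec (fun a => - f a) :=
  prim_int_neg.comp hf

theorem pcst (c : ℤ) : Primrec (fun _ : α => c) := Primrec.const c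

theorem ppow {f : α → ℤ} (hf : Primrec f) : ∀ n : ℕ, Primrec (fun a => f a ^ n)
  | 0 => (pcst 1).of_eq fun a => (pow_zero _).symm
  | n + 1 => (pmul (ppow hf n) hf).of_eq fun a => (pow_succ _ _).symm

theorem pnatAbs {f : α → ℤ} (hf : Primrec f) : Primrec (fun a => (f a).natAbs) := by
  refine (Primrec.nat_add.comp (prim_toNat.comp hf) (prim_toNat_neg.comp hf)).of_eq fun a => ?_
  omega

theorem npow {f : α → ℕ} (hf : Primrec f) : ∀ n : ℕ, Primrec (fun a => f a ^ n)
  | 0 => (Primrec.const 1).of_eq fun a => (pow_zero _).symm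
  | n + 1 => (Primrec.nat_mul.comp (npow hf n) hf).of_eq fun a => (pow_succ _ _).symm

/-- the coefficients of `ofT` -/
theorem p_h4 {t : α → T5} {x z : α → ℤ} (ht : Primrec t) (hx : Primrec x) (hz : Primrec z) :
    Primrec (fun a => (ofT (t a)).h4 (x a) (z a)) := by
  have hA : Primrec (fun a => (t a).1) := Primrec.fst.comp ht
  have h2 : Primrec (fun a => (t a).2) := Primrec.snd.comp ht
  have hB : Primrec (fun a => (t a).2.1) := Primrec.fst.comp h2
  have h3 : Primrec (fun a => (t a).2.2) := Primrec.snd.comp h2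
  have hC : Primrec (fun a => (t a).2.2.1) := Primrec.fst.comp h3
  have h4 : Primrec (fun a => (t a).2.2.2) := Primrec.snd.comp h3
  have hD : Primrec (fun a => (t a).2.2.2.1) := Primrec.fst.comp h4
  have hE : Primrec (fun a => (t a).2.2.2.2) := Primrec.snd.comp h4
  have e : ∀ a, (ofT (t a)).h4 (x a) (z a) =
    (3 * (t a).2.1 ^ 2 - 8 * (t a).1 * (t a).2.2.1) * x a ^ 4 +
    4 * ((t a).2.1 * (t a).2.2.1 - 6 * (t a).1 * (t a).2.2.2.1) * x a ^ 3 * z a +
    2 * (2 * (t a).2.2.1 ^ 2 - 24 * (t a).1 * (t a).2.2.2.2 - 3 * (t a).2.1 * (t a).2.2.2.1) *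
      x a ^ 2 * z a ^ 2 +
    4 * ((t a).2.2.1 * (t a).2.2.2.1 - 6 * (t a).2.1 * (t a).2.2.2.2) * x a * z a ^ 3 +
    (3 * (t a).2.2.2.1 ^ 2 - 8 * (t a).2.2.1 * (t a).2.2.2.2) * z a ^ 4 := fun a => rfl
  refine Primrec.of_eq ?_ fun a => (e a).symm
  refine padd (padd (padd (padd ?_ ?_) ?_) ?_) ?_
  · exact pmul (psub (pmul (pcst 3) (ppow hB 2)) (pmul (pmul (pcst 8) hA) hC)) (ppow hx 4)
  · exact pmul (pmul (pmul (pcst 4) (psub (pmul hB hC) (pmul (pmul (pcst 6) hA) hD)))
      (ppow hx 3)) hz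
  · exact pmul (pmul (pmul (pcst 2) (psub (psub (pmul (pcst 2) (ppow hC 2))
      (pmul (pmul (pcst 24) hA) hE)) (pmul (pmul (pcst 3) hB) hD))) (ppow hx 2)) (ppow hz 2)
  · exact pmul (pmul (pmul (pcst 4) (psub (pmul hC hD) (pmul (pmul (pcst 6) hB) hE))) hx)
      (ppow hz 3)
  · exact pmul (psub (pmul (pcst 3) (ppow hD 2)) (pmul (pmul (pcst 8) hC) hE)) (ppow hz 4)

theorem p_eR {e : α → Ent} (he : Primrec e) : Primrec (fun a => eR (e a)) := by
  have h2 : Primrec (fun a => (e a).2) := Primrec.snd.comp he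
  have h3 : Primrec (fun a => (e a).2.2) := Primrec.snd.comp h2
  exact p_h4 (Primrec.fst.comp he) (Primrec.fst.comp h2) (Primrec.fst.comp h3)

theorem p_eS {e : α → Ent} (he : Primrec e) : Primrec (fun a => eS (e a)) := by
  have h2 : Primrec (fun a => (e a).2) := Primrec.snd.comp he
  have h3 : Primrec (fun a => (e a).2.2) := Primrec.snd.comp h2
  exact pmul (pcst 48) (ppow (Primrec.snd.comp h3) 2)

end

/-! ### bounded quantifiers over computable predicates -/

section

variable {α : Type} [Primcodable α]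

theorem cand {p q : α → Prop} (hp : ComputablePred p) (hq : ComputablePred q) :
    ComputablePred (fun a => p a ∧ q a) := by
  obtain ⟨f, hf, rfl⟩ := ComputablePred.computable_iff.1 hp
  obtain ⟨g, hg, rfl⟩ := ComputablePred.computable_iff.1 hq
  refine ComputablePred.computable_iff.2 ⟨fun a => f a && g a,
    (Primrec.and.to_comp).comp hf hg, ?_⟩
  funext a
  simp

theorem cor {p q : α → Prop} (hp : ComputablePred p) (hq : ComputablePred q) :
    ComputablePred (fun a => p a ∨ q a) := by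
  obtain ⟨f, hf, rfl⟩ := ComputablePred.computable_iff.1 hp
  obtain ⟨g, hg, rfl⟩ := ComputablePred.computable_iff.1 hq
  refine ComputablePred.computable_iff.2 ⟨fun a => f a || g a,
    (Primrec.or.to_comp).comp hf hg, ?_⟩
  funext a
  simp

theorem cimp {p q : α → Prop} (hp : ComputablePred p) (hq : ComputablePred q) :
    ComputablePred (fun a => p a → q a) :=
  (cor hp.not hq).of_eq fun a => by
    constructor
    · rintro (h | h) h'
      · exact absurd h' h
      · exact h
    · intro h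
      by_cases h' : p a
      · exact Or.inr (h h')
      · exact Or.inl h'

theorem ccomp {β : Type} [Primcodable β] {p : β → Prop} (hp : ComputablePred p) {f : α → β}
    (hf : Computable f) : ComputablePred (fun a => p (f a)) := by
  obtain ⟨g, hg, rfl⟩ := ComputablePred.computable_iff.1 hp
  exact ComputablePred.computable_iff.2 ⟨fun a => g (f a), hg.comp hf, rfl⟩

/-- bounded universal quantifier -/
theorem call {p : α → ℕ → Prop} (hp : ComputablePred (fun c : α × ℕ => p c.1 c.2)) {b : α → ℕ}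
    (hb : Computable b) : ComputablePred (fun a => ∀ i < b a, p a i) := by
  obtain ⟨f, hf, hf2⟩ := ComputablePred.computable_iff.1 hp
  have hpf : ∀ a i, p a i ↔ f (a, i) = true := fun a i => by
    have := congrFun hf2 (a, i)
    exact iff_of_eq this
  have hh : Computable₂ (fun (a : α) (c : ℕ × Bool) => c.2 && f (a, c.1)) := by
    refine (Primrec.and.to_comp).comp (Computable.snd.comp Computable.snd) ?_
    exact hf.comp (Computable.pair Computable.fst (Computable.fst.comp Computable.snd))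
  have key : Computable (fun a => Nat.rec (motive := fun _ => Bool) true
      (fun y IH => IH && f (a, y)) (b a)) :=
    Computable.nat_rec hb (Computable.const true) hh
  refine ComputablePred.computable_iff.2 ⟨_, key, ?_⟩
  funext a
  apply propext
  have : ∀ n : ℕ, (∀ i < n, p a i) ↔ (Nat.rec (motive := fun _ => Bool) true
      (fun y IH => IH && f (a, y)) n : Bool) = true := by
    intro n
    induction n with
    | zero => simp
    | succ n ih =>
      constructor
      · intro h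
        have h1 := ih.1 fun i hi => h i (by omega)
        have h2 := (hpf a n).1 (h n (by omega))
        show (_ && _) = true
        rw [Bool.and_eq_true]
        exact ⟨h1, h2⟩
      · intro h
        have h' : (_ && _) = true := h
        rw [Bool.and_eq_true] at h'
        intro i hi
        rcases Nat.lt_succ_iff_lt_or_eq.1 hi with h1 | h1
        · exact ih.2 h'.1 i h1
        · rw [h1]
          exact (hpf a n).2 h'.2
  exact this (b a)

/-- bounded universal quantifier over the integers -/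
theorem callZ {p : α → ℤ → Prop} (hp : ComputablePred (fun c : α × ℤ => p c.1 c.2)) {b : α → ℕ}
    (hb : Computable b) : ComputablePred (fun a => ∀ x : ℤ, x.natAbs ≤ b a → p a x) := by
  have h1 : ComputablePred (fun c : α × ℕ => p c.1 ((c.2 : ℤ) - (b c.1 : ℤ))) := by
    refine ccomp (f := fun c : α × ℕ => (c.1, ((c.2 : ℤ) - (b c.1 : ℤ)))) hp ?_
    refine Computable.pair Computable.fst ?_
    refine prim_int_sub.to_comp.comp (prim_natCast.to_comp.comp Computable.snd) ?_
    exact prim_natCast.to_comp.comp (hb.comp Computable.fst)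
  have hb2 : Computable (fun a => 2 * b a + 1) :=
    Computable.succ.comp (Primrec.nat_mul.to_comp.comp (Computable.const 2) hb)
  refine (call (p := fun a i => p a ((i : ℤ) - (b a : ℤ))) h1 hb2).of_eq fun a => ?_
  constructor
  · intro h x hx
    have h2 := h (x + b a).toNat (by omega)
    have h3 : (((x + b a).toNat : ℕ) : ℤ) - (b a : ℤ) = x := by omega
    rw [h3] at h2
    exact h2
  · intro h i hi
    exact h _ (by omega)

end

/-! ### the theorem -/

theorem t_VL (pg : S_PG) : PrimrecPred (fun c : (ℤ × ℤ) × List Ent => VL c.1.1 c.1.2 c.2) := by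
  obtain ⟨pG, pE, pR, pI, pn⟩ := pg
  have h1 : PrimrecRel (fun (e : Ent) (c : ℤ × ℤ) => Good c.1 c.2 e) :=
    pG.comp (f := fun q : Ent × (ℤ × ℤ) => (q.2, q.1)) (Primrec.pair Primrec.snd Primrec.fst)
  have h2 := h1.forall_mem_list
  have h3 : PrimrecPred (fun c : (ℤ × ℤ) × List Ent => ∀ e ∈ c.2, Good c.1.1 c.1.2 e) :=
    h2.comp (f := fun c : (ℤ × ℤ) × List Ent => c.2) (g := fun c => c.1) Primrec.snd Primrec.fst
  -- pairwise
  have h4 : PrimrecPred (fun q : (ℕ × ℕ) × List Ent =>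
      NEq (q.2.getD q.1.1 default) (q.2.getD q.1.2 default)) := by
    have e1 : Primrec (fun q : (ℕ × ℕ) × List Ent => q.2.getD q.1.1 default) :=
      (Primrec.list_getD default).comp Primrec.snd (Primrec.fst.comp Primrec.fst)
    have e2 : Primrec (fun q : (ℕ × ℕ) × List Ent => q.2.getD q.1.2 default) :=
      (Primrec.list_getD default).comp Primrec.snd (Primrec.snd.comp Primrec.fst)
    refine PrimrecPred.not ?_
    exact pE.comp (f := fun q : (ℕ × ℕ) × List Ent => ((q.2.getD q.1.1 default).1,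
      (eR (q.2.getD q.1.2 default), eS (q.2.getD q.1.2 default))))
      (Primrec.pair (Primrec.fst.comp e1) (Primrec.pair (p_eR e2) (p_eS e2)))
  have h5 : PrimrecRel (fun (i : ℕ) (q : ℕ × List Ent) =>
      NEq (q.2.getD i default) (q.2.getD q.1 default)) :=
    h4.comp (f := fun c : ℕ × (ℕ × List Ent) => ((c.1, c.2.1), c.2.2))
      (Primrec.pair (Primrec.pair Primrec.fst (Primrec.fst.comp Primrec.snd))
        (Primrec.snd.comp Primrec.snd))
  have h6 : PrimrecRel (fun (L : List ℕ) (q : ℕ × List Ent) =>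
      ∀ i ∈ L, NEq (q.2.getD i default) (q.2.getD q.1 default)) := h5.forall_mem_list
  have h7 : PrimrecRel (fun (j : ℕ) (L : List Ent) =>
      ∀ i ∈ List.range j, NEq (L.getD i default) (L.getD j default)) :=
    h6.comp (f := fun c : ℕ × List Ent => List.range c.1) (g := fun c => c)
      (Primrec.list_range.comp Primrec.fst) Primrec.id
  have h8 : PrimrecRel (fun (M : List ℕ) (L : List Ent) => ∀ j ∈ M,
      ∀ i ∈ List.range j, NEq (L.getD i default) (L.getD j default)) := h7.forall_mem_list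
  have h9 : PrimrecPred (fun L : List Ent => ∀ j ∈ List.range L.length,
      ∀ i ∈ List.range j, NEq (L.getD i default) (L.getD j default)) :=
    h8.comp (f := fun L : List Ent => List.range L.length) (g := fun L => L)
      (Primrec.list_range.comp Primrec.list_length) Primrec.id
  have h10 : ∀ L : List Ent, (∀ j ∈ List.range L.length,
      ∀ i ∈ List.range j, NEq (L.getD i default) (L.getD j default)) ↔ L.Pairwise NEq := by
    intro L
    rw [List.pairwise_iff_getElem]
    constructor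
    · intro h i j hi hj hij
      have := h j (List.mem_range.2 hj) i (List.mem_range.2 hij)
      rw [List.getD_eq_getElem _ _ hi, List.getD_eq_getElem _ _ hj] at this
      exact this
    · intro h j hj i hi
      have hj' := List.mem_range.1 hj
      have hi' := List.mem_range.1 hi
      have := h i j (by omega) hj' hi'
      rw [List.getD_eq_getElem _ _ (by omega), List.getD_eq_getElem _ _ hj']
      exact this
  have h11 : PrimrecPred (fun L : List Ent => L.Pairwise NEq) := h9.of_eq h10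
  exact h3.and (h11.comp (f := fun c : (ℤ × ℤ) × List Ent => c.2) Primrec.snd)

theorem t_PV (pg : S_PG) : S_PV := by
  refine ⟨t_VL pg, fun K P hP => ?_⟩
  obtain ⟨pG, pE, pR, pI, pn⟩ := pg
  -- parameters
  let S : Type := (ℤ × ℤ) × List Ent
  have hE : PrimrecRel (fun (e : Ent) (t : T5) => EqvB (ofT t) (eR e) (eS e)) :=
    pE.comp (f := fun q : Ent × T5 => (q.2, (eR q.1, eS q.1)))
      (Primrec.pair Primrec.snd (Primrec.pair (p_eR Primrec.fst) (p_eS Primrec.fst)))
  have hE2 : PrimrecRel (fun (L : List Ent) (t : T5) => ∃ e ∈ L, EqvB (ofT t) (eR e) (eS e)) :=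
    hE.exists_mem_list
  have hQ : ComputablePred (fun c : ((ℤ × ℤ) × List Ent) × T5 =>
      Inv c.1.1.1 c.1.1.2 (ofT c.2) → ¬ RootB (ofT c.2) → P c.2 →
        ∃ e ∈ c.1.2, EqvB (ofT c.2) (eR e) (eS e)) := by
    refine cimp ?_ (cimp ?_ (cimp ?_ ?_))
    · exact (pI.comp (f := fun c : ((ℤ × ℤ) × List Ent) × T5 => (c.1.1, c.2))
        (Primrec.pair (Primrec.fst.comp Primrec.fst) Primrec.snd)).computablePred
    · exact ((pR.comp (f := fun c : ((ℤ × ℤ) × List Ent) × T5 => c.2)
        Primrec.snd).not).computablePred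
    · exact ccomp hP (f := fun c : ((ℤ × ℤ) × List Ent) × T5 => c.2) Computable.snd
    · exact (hE2.comp (f := fun c : ((ℤ × ℤ) × List Ent) × T5 => c.1.2) (g := fun c => c.2)
        (Primrec.snd.comp Primrec.fst) Primrec.snd).computablePred
  -- the bound
  have hb : Primrec (fun c : (ℤ × ℤ) × List Ent => bdK K c.1.1 c.1.2) := by
    refine npow ?_ K
    refine Primrec.nat_add.comp (Primrec.nat_add.comp (Primrec.nat_mul.comp (Primrec.const 48)
      (pnatAbs (Primrec.fst.comp Primrec.fst))) (Primrec.nat_mul.comp (Primrec.const 1728)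
      (pnatAbs (Primrec.snd.comp Primrec.fst)))) (Primrec.const 2)
  -- five quantifiers
  have q5 : ComputablePred (fun c : ((((((ℤ × ℤ) × List Ent) × ℤ) × ℤ) × ℤ) × ℤ) =>
      ∀ x : ℤ, x.natAbs ≤ bdK K c.1.1.1.1.1.1 c.1.1.1.1.1.2 →
        (Inv c.1.1.1.1.1.1 c.1.1.1.1.1.2 (ofT (c.1.1.1.2, c.1.1.2, c.1.2, c.2, x)) →
          ¬ RootB (ofT (c.1.1.1.2, c.1.1.2, c.1.2, c.2, x)) → P (c.1.1.1.2, c.1.1.2, c.1.2, c.2, x) →
        ∃ e ∈ c.1.1.1.1.2, EqvB (ofT (c.1.1.1.2, c.1.1.2, c.1.2, c.2, x)) (eR e) (eS e))) := by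
    refine callZ (α := (((((ℤ × ℤ) × List Ent) × ℤ) × ℤ) × ℤ) × ℤ) (p := fun c x => (Inv c.1.1.1.1.1.1 c.1.1.1.1.1.2
        (ofT (c.1.1.1.2, c.1.1.2, c.1.2, c.2, x)) →
          ¬ RootB (ofT (c.1.1.1.2, c.1.1.2, c.1.2, c.2, x)) → P (c.1.1.1.2, c.1.1.2, c.1.2, c.2, x) →
        ∃ e ∈ c.1.1.1.1.2, EqvB (ofT (c.1.1.1.2, c.1.1.2, c.1.2, c.2, x)) (eR e) (eS e))) ?_ ?_
    · refine ccomp hQ (f := fun c : (((((((ℤ × ℤ) × List Ent) × ℤ) × ℤ) × ℤ) × ℤ) × ℤ) =>
        (c.1.1.1.1.1, (c.1.1.1.1.2, c.1.1.1.2, c.1.1.2, c.1.2, c.2))) ?_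
      have f1 : Primrec (fun c : (((((((ℤ × ℤ) × List Ent) × ℤ) × ℤ) × ℤ) × ℤ) × ℤ) => c.1) :=
        Primrec.fst
      have f2 := Primrec.fst.comp f1
      have f3 := Primrec.fst.comp f2
      have f4 := Primrec.fst.comp f3
      have f5 := Primrec.fst.comp f4
      exact (Primrec.pair f5 (Primrec.pair (Primrec.snd.comp f4) (Primrec.pair
        (Primrec.snd.comp f3) (Primrec.pair (Primrec.snd.comp f2) (Primrec.pair
          (Primrec.snd.comp f1) Primrec.snd))))).to_comp
    · exact (hb.comp (Primrec.fst.comp (Primrec.fst.comp (Primrec.fst.comp Primrec.fst)))).to_comp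
  have q4 := callZ (α := ((((ℤ × ℤ) × List Ent) × ℤ) × ℤ) × ℤ)
    (p := fun c y => ∀ x : ℤ, x.natAbs ≤ bdK K c.1.1.1.1.1 c.1.1.1.1.2 →
        (Inv c.1.1.1.1.1 c.1.1.1.1.2 (ofT (c.1.1.2, c.1.2, c.2, y, x)) →
          ¬ RootB (ofT (c.1.1.2, c.1.2, c.2, y, x)) → P (c.1.1.2, c.1.2, c.2, y, x) →
        ∃ e ∈ c.1.1.1.2, EqvB (ofT (c.1.1.2, c.1.2, c.2, y, x)) (eR e) (eS e)))
    (b := fun c => bdK K c.1.1.1.1.1 c.1.1.1.1.2) q5
    ((hb.comp (Primrec.fst.comp (Primrec.fst.comp Primrec.fst))).to_comp)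
  have q3 := callZ (α := (((ℤ × ℤ) × List Ent) × ℤ) × ℤ)
    (p := fun c w => ∀ y : ℤ, y.natAbs ≤ bdK K c.1.1.1.1 c.1.1.1.2 →
        ∀ x : ℤ, x.natAbs ≤ bdK K c.1.1.1.1 c.1.1.1.2 →
        (Inv c.1.1.1.1 c.1.1.1.2 (ofT (c.1.2, c.2, w, y, x)) →
          ¬ RootB (ofT (c.1.2, c.2, w, y, x)) → P (c.1.2, c.2, w, y, x) →
        ∃ e ∈ c.1.1.2, EqvB (ofT (c.1.2, c.2, w, y, x)) (eR e) (eS e)))
    (b := fun c => bdK K c.1.1.1.1 c.1.1.1.2) q4
    ((hb.comp (Primrec.fst.comp Primrec.fst)).to_comp)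
  have q2 := callZ (α := ((ℤ × ℤ) × List Ent) × ℤ)
    (p := fun c v => ∀ w : ℤ, w.natAbs ≤ bdK K c.1.1.1 c.1.1.2 →
        ∀ y : ℤ, y.natAbs ≤ bdK K c.1.1.1 c.1.1.2 →
        ∀ x : ℤ, x.natAbs ≤ bdK K c.1.1.1 c.1.1.2 →
        (Inv c.1.1.1 c.1.1.2 (ofT (c.2, v, w, y, x)) →
          ¬ RootB (ofT (c.2, v, w, y, x)) → P (c.2, v, w, y, x) →
        ∃ e ∈ c.1.2, EqvB (ofT (c.2, v, w, y, x)) (eR e) (eS e)))
    (b := fun c => bdK K c.1.1.1 c.1.1.2) q3 ((hb.comp Primrec.fst).to_comp)
  have q1 := callZ (α := (ℤ × ℤ) × List Ent)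
    (p := fun c u => ∀ v : ℤ, v.natAbs ≤ bdK K c.1.1 c.1.2 →
        ∀ w : ℤ, w.natAbs ≤ bdK K c.1.1 c.1.2 →
        ∀ y : ℤ, y.natAbs ≤ bdK K c.1.1 c.1.2 →
        ∀ x : ℤ, x.natAbs ≤ bdK K c.1.1 c.1.2 →
        (Inv c.1.1 c.1.2 (ofT (u, v, w, y, x)) →
          ¬ RootB (ofT (u, v, w, y, x)) → P (u, v, w, y, x) →
        ∃ e ∈ c.2, EqvB (ofT (u, v, w, y, x)) (eR e) (eS e)))
    (b := fun c => bdK K c.1.1 c.1.2) q2 hb.to_comp
  refine q1.of_eq fun c => ?_
  constructor
  · rintro h ⟨u, v, w, y, x⟩ ⟨h1, h2, h3, h4, h5⟩ h6 h7 h8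
    exact h u h1 v h2 w h3 y h4 x h5 h6 h7 h8
  · intro h u h1 v h2 w h3 y h4 x h5 h6 h7 h8
    exact h (u, v, w, y, x) ⟨h1, h2, h3, h4, h5⟩ h6 h7 h8

end Pool.Agent.H668.QR.PV
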