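import Pool.Agent.H447.QR.Stm

set_option autoImplicit false

namespace Pool.Agent.H671.QR.F3

open Pool.Agent.H447.QR

theorem key (A : ℂ) (N t : ℝ) (w : Fin 4 → ℝ) (c0 c1 c2 c3 : ℂ) (hw : ∀ i, 0 < w i)
    (hN : 0 < N) (ht : 0 ≤ t) (hA : ‖A‖ ^ 2 = N ^ 2 * ∏ i, w i)
    (h0 : w 0 * ‖c0‖ ^ 2 ≤ t) (h1 : w 1 * ‖c1‖ ^ 2 ≤ t) (h2 : w 2 * ‖c2‖ ^ 2 ≤ t)
    (h3 : w 3 * ‖c3‖ ^ 2 ≤ t) :
    ‖A * (c0 * c1 * c2 * c3)‖ ≤ N * t ^ 2 := by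
  rw [← pow_le_pow_iff_left₀ (norm_nonneg _) (by positivity) two_ne_zero]
  have e1 : ‖A * (c0 * c1 * c2 * c3)‖ ^ 2 = N ^ 2 *
      ((w 0 * ‖c0‖ ^ 2) * (w 1 * ‖c1‖ ^ 2) * ((w 2 * ‖c2‖ ^ 2) * (w 3 * ‖c3‖ ^ 2))) := by
    rw [norm_mul, mul_pow, hA, Fin.prod_univ_four]
    simp only [norm_mul]
    ring
  rw [e1]
  have p0 : 0 ≤ w 0 * ‖c0‖ ^ 2 := mul_nonneg (hw 0).le (by positivity)
  have p1 : 0 ≤ w 1 * ‖c1‖ ^ 2 := mul_nonneg (hw 1).le (by positivity)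
  have p2 : 0 ≤ w 2 * ‖c2‖ ^ 2 := mul_nonneg (hw 2).le (by positivity)
  have p3 : 0 ≤ w 3 * ‖c3‖ ^ 2 := mul_nonneg (hw 3).le (by positivity)
  have e2 : (w 0 * ‖c0‖ ^ 2) * (w 1 * ‖c1‖ ^ 2) * ((w 2 * ‖c2‖ ^ 2) * (w 3 * ‖c3‖ ^ 2))
      ≤ (t * t) * (t * t) := by
    apply mul_le_mul
    · exact mul_le_mul h0 h1 p1 ht
    · exact mul_le_mul h2 h3 p3 ht
    · exact mul_nonneg p2 p3
    · exact mul_nonneg ht ht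
  calc N ^ 2 * ((w 0 * ‖c0‖ ^ 2) * (w 1 * ‖c1‖ ^ 2) * ((w 2 * ‖c2‖ ^ 2) * (w 3 * ‖c3‖ ^ 2)))
      ≤ N ^ 2 * ((t * t) * (t * t)) := mul_le_mul_of_nonneg_left e2 (by positivity)
    _ = (N * t ^ 2) ^ 2 := by ring

theorem sq_bd (q1 q2 N B M : ℝ) (h1 : 0 ≤ q1) (h2 : 0 ≤ q2) (hN : 0 < N) (hNB : N ≤ B)
    (h3 : 3 * q1 * q2 ≤ M) (hM : M ≤ B) (hl : 1 ≤ N * q2 ^ 2) : q1 ^ 2 ≤ B ^ 3 / 9 := by
  have hB : 0 < B := lt_of_lt_of_le hN hNB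
  have h4 : q1 * q2 ≤ B / 3 := by linarith
  have h5 : 0 ≤ q1 * q2 := mul_nonneg h1 h2
  have h6 : (q1 * q2) ^ 2 ≤ (B / 3) ^ 2 := pow_le_pow_left₀ h5 h4 2
  calc q1 ^ 2 = q1 ^ 2 * 1 := by ring
    _ ≤ q1 ^ 2 * (N * q2 ^ 2) := mul_le_mul_of_nonneg_left hl (by positivity)
    _ = N * (q1 * q2) ^ 2 := by ring
    _ ≤ B * (B / 3) ^ 2 := mul_le_mul hNB h6 (by positivity) hB.le
    _ = B ^ 3 / 9 := by ring

theorem one_le_norm (n : ℤ) (h : n ≠ 0) : (1 : ℝ) ≤ ‖(n : ℂ)‖ := by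
  rw [Complex.norm_intCast]
  have h1 : 1 ≤ |n| := Int.one_le_abs h
  have h2 : ((1 : ℤ) : ℝ) ≤ ((|n| : ℤ) : ℝ) := Int.cast_le.mpr h1
  simpa using h2

theorem natAbs_bd (n : ℤ) (m K : ℕ) (h : ‖(n : ℂ)‖ ≤ ((m : ℝ) ^ K) ^ 4) :
    n.natAbs ≤ m ^ (4 * K) := by
  rw [Complex.norm_intCast] at h
  have h1 : ((n.natAbs : ℕ) : ℝ) ≤ ((m ^ (4 * K) : ℕ) : ℝ) := by
    rw [Nat.cast_natAbs, Int.cast_abs]
    push_cast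
    rw [mul_comm 4 K, pow_mul]
    exact h
  exact_mod_cast h1

theorem t_F3 (f1 : S_F1) (f2 : S_F2) (_c1 : S_COV1) : S_F3 := by
  obtain ⟨K, hK⟩ := f2
  refine ⟨4 * K, ?_⟩
  intro g hg
  by_cases hA : g.A = 0
  · refine ⟨1, 0, 0, 1, Or.inl (by norm_num), Or.inl ?_⟩
    simp [Qf.comp, hA]
  obtain ⟨α, β, γ, N, w, θ, hα, hd, hM, hN, hNM, hw, hAN, hfac, hQ⟩ := hK g hA hg
  obtain ⟨p, q, r, s, hdet, hq1, h3⟩ := f1 α β γ hα hd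
  set B : ℝ := ((g.I.natAbs + g.J.natAbs + 2 : ℕ) : ℝ) ^ K with hB
  have hB1 : 1 ≤ B := by
    apply one_le_pow₀
    have : 1 ≤ g.I.natAbs + g.J.natAbs + 2 := by omega
    exact_mod_cast this
  set q1 : ℝ := α * p ^ 2 + β * p * r + γ * r ^ 2 with hq1d
  set q2 : ℝ := α * q ^ 2 + β * q * s + γ * s ^ 2 with hq2d
  have hAn : ‖(g.A : ℂ)‖ ^ 2 = N ^ 2 * ∏ i, w i := by
    rw [Complex.norm_intCast, sq_abs]; exact hAN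
  -- bounds of the linear forms
  have ha : ∀ i, w i * ‖(p : ℂ) - θ i * (r : ℂ)‖ ^ 2 ≤ q1 := by
    intro i
    have h := hQ (p : ℝ) (r : ℝ)
    have h' : w i * ‖(((p : ℤ) : ℝ) : ℂ) - θ i * (((r : ℤ) : ℝ) : ℂ)‖ ^ 2 ≤
        ∑ i, w i * ‖(((p : ℤ) : ℝ) : ℂ) - θ i * (((r : ℤ) : ℝ) : ℂ)‖ ^ 2 :=
      Finset.single_le_sum (f := fun i => w i * ‖(((p : ℤ) : ℝ) : ℂ) - θ i * (((r : ℤ) : ℝ) : ℂ)‖ ^ 2)
        (fun j _ => mul_nonneg (hw j).le (by positivity)) (Finset.mem_univ i)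
    rw [← h] at h'
    simpa using h'
  have hb : ∀ i, w i * ‖(q : ℂ) - θ i * (s : ℂ)‖ ^ 2 ≤ q2 := by
    intro i
    have h := hQ (q : ℝ) (s : ℝ)
    have h' : w i * ‖(((q : ℤ) : ℝ) : ℂ) - θ i * (((s : ℤ) : ℝ) : ℂ)‖ ^ 2 ≤
        ∑ i, w i * ‖(((q : ℤ) : ℝ) : ℂ) - θ i * (((s : ℤ) : ℝ) : ℂ)‖ ^ 2 :=
      Finset.single_le_sum (f := fun i => w i * ‖(((q : ℤ) : ℝ) : ℂ) - θ i * (((s : ℤ) : ℝ) : ℂ)‖ ^ 2)
        (fun j _ => mul_nonneg (hw j).le (by positivity)) (Finset.mem_univ i)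
    rw [← h] at h'
    simpa using h'
  have hq2 : 0 ≤ q2 := le_trans (mul_nonneg (hw 0).le (by positivity)) (hb 0)
  -- Vieta
  have v0 : (g.E : ℂ) = g.A * (θ 0 * θ 1 * θ 2 * θ 3) := by
    have h := hfac 0 1
    rw [Fin.prod_univ_four] at h
    linear_combination h
  have e1 := hfac 1 1
  have e2 := hfac (-1) 1
  have e3 := hfac 2 1
  rw [Fin.prod_univ_four] at e1 e2 e3
  have vC : (g.C : ℂ) = g.A * (θ 0 * θ 1 + θ 0 * θ 2 + θ 0 * θ 3 + θ 1 * θ 2 + θ 1 * θ 3 + θ 2 * θ 3) := by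
    linear_combination (1 / 2) * e1 + (1 / 2) * e2 - v0
  have vB : (g.B : ℂ) = -(g.A * (θ 0 + θ 1 + θ 2 + θ 3)) := by
    linear_combination (1 / 6) * e3 - (1 / 6) * v0 - (4 / 6) * vC - (1 / 6) * e1 + (1 / 6) * e2
  have vD : (g.D : ℂ) = -(g.A * (θ 0 * θ 1 * θ 2 + θ 0 * θ 1 * θ 3 + θ 0 * θ 2 * θ 3 + θ 1 * θ 2 * θ 3)) := by
    linear_combination (1 / 2) * e1 - (1 / 2) * e2 - vB
  -- the coefficients
  set a0 : ℂ := (p : ℂ) - θ 0 * (r : ℂ) with ha0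
  set a1 : ℂ := (p : ℂ) - θ 1 * (r : ℂ) with ha1
  set a2 : ℂ := (p : ℂ) - θ 2 * (r : ℂ) with ha2
  set a3 : ℂ := (p : ℂ) - θ 3 * (r : ℂ) with ha3
  set b0 : ℂ := (q : ℂ) - θ 0 * (s : ℂ) with hb0
  set b1 : ℂ := (q : ℂ) - θ 1 * (s : ℂ) with hb1
  set b2 : ℂ := (q : ℂ) - θ 2 * (s : ℂ) with hb2
  set b3 : ℂ := (q : ℂ) - θ 3 * (s : ℂ) with hb3
  have cA : ((g.comp p q r s).A : ℂ) = g.A * (a0 * a1 * a2 * a3) := by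
    simp only [Qf.comp]
    push_cast
    rw [vB, vC, vD, v0, ha0, ha1, ha2, ha3]
    ring
  have cE : ((g.comp p q r s).E : ℂ) = g.A * (b0 * b1 * b2 * b3) := by
    simp only [Qf.comp]
    push_cast
    rw [vB, vC, vD, v0, hb0, hb1, hb2, hb3]
    ring
  have cB : ((g.comp p q r s).B : ℂ) = g.A * (b0 * a1 * a2 * a3) + g.A * (a0 * b1 * a2 * a3)
      + g.A * (a0 * a1 * b2 * a3) + g.A * (a0 * a1 * a2 * b3) := by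
    simp only [Qf.comp]
    push_cast
    rw [vB, vC, vD, v0, ha0, ha1, ha2, ha3, hb0, hb1, hb2, hb3]
    ring
  have cD : ((g.comp p q r s).D : ℂ) = g.A * (a0 * b1 * b2 * b3) + g.A * (b0 * a1 * b2 * b3)
      + g.A * (b0 * b1 * a2 * b3) + g.A * (b0 * b1 * b2 * a3) := by
    simp only [Qf.comp]
    push_cast
    rw [vB, vC, vD, v0, ha0, ha1, ha2, ha3, hb0, hb1, hb2, hb3]
    ring
  have cC : ((g.comp p q r s).C : ℂ) = g.A * (a0 * a1 * b2 * b3) + g.A * (a0 * b1 * a2 * b3)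
      + g.A * (a0 * b1 * b2 * a3) + g.A * (b0 * a1 * a2 * b3) + g.A * (b0 * a1 * b2 * a3)
      + g.A * (b0 * b1 * a2 * a3) := by
    simp only [Qf.comp]
    push_cast
    rw [vB, vC, vD, v0, ha0, ha1, ha2, ha3, hb0, hb1, hb2, hb3]
    ring
  by_cases hA' : (g.comp p q r s).A = 0
  · exact ⟨p, q, r, s, hdet, Or.inl hA'⟩
  by_cases hE' : (g.comp p q r s).E = 0
  · refine ⟨q, p, s, r, ?_, Or.inl ?_⟩
    · rcases hdet with h | h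
      · right; linarith
      · left; linarith
    · simpa [Qf.comp] using hE'
  refine ⟨p, q, r, s, hdet, Or.inr ?_⟩
  have l1 : 1 ≤ N * q1 ^ 2 := by
    have h := one_le_norm _ hA'
    rw [cA] at h
    exact h.trans (key _ N q1 w a0 a1 a2 a3 hw hN hq1.le hAn (ha 0) (ha 1) (ha 2) (ha 3))
  have l2 : 1 ≤ N * q2 ^ 2 := by
    have h := one_le_norm _ hE'
    rw [cE] at h
    exact h.trans (key _ N q2 w b0 b1 b2 b3 hw hN hq2 hAn (hb 0) (hb 1) (hb 2) (hb 3))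
  have s1 : q1 ^ 2 ≤ B ^ 3 / 9 := sq_bd q1 q2 N B _ hq1.le hq2 hN hNM h3 hM l2
  have s2 : q2 ^ 2 ≤ B ^ 3 / 9 :=
    sq_bd q2 q1 N B _ hq2 hq1.le hN hNM (by linarith [mul_comm (3 * q1) q2, mul_comm (3 * q2) q1]) hM l1
  set t : ℝ := max q1 q2 with ht
  have ht0 : 0 ≤ t := le_trans hq2 (le_max_right _ _)
  have hts : t ^ 2 ≤ B ^ 3 / 9 := by
    rcases max_choice q1 q2 with h | h
    · rw [ht, h]; exact s1
    · rw [ht, h]; exact s2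
  have A0 : w 0 * ‖a0‖ ^ 2 ≤ t := (ha 0).trans (le_max_left _ _)
  have A1 : w 1 * ‖a1‖ ^ 2 ≤ t := (ha 1).trans (le_max_left _ _)
  have A2 : w 2 * ‖a2‖ ^ 2 ≤ t := (ha 2).trans (le_max_left _ _)
  have A3 : w 3 * ‖a3‖ ^ 2 ≤ t := (ha 3).trans (le_max_left _ _)
  have B0 : w 0 * ‖b0‖ ^ 2 ≤ t := (hb 0).trans (le_max_right _ _)
  have B1 : w 1 * ‖b1‖ ^ 2 ≤ t := (hb 1).trans (le_max_right _ _)
  have B2 : w 2 * ‖b2‖ ^ 2 ≤ t := (hb 2).trans (le_max_right _ _)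
  have B3 : w 3 * ‖b3‖ ^ 2 ≤ t := (hb 3).trans (le_max_right _ _)
  have hfin : 6 * (N * t ^ 2) ≤ B ^ 4 := by
    have h : N * t ^ 2 ≤ B * (B ^ 3 / 9) := mul_le_mul hNM hts (by positivity) (by linarith)
    have h' : B * (B ^ 3 / 9) = B ^ 4 / 9 := by ring
    have h4 : 0 ≤ B ^ 4 := by positivity
    rw [h'] at h
    linarith
  have hNt : 0 ≤ N * t ^ 2 := by positivity
  have kk := fun c0 c1 c2 c3 h0 h1 h2 h3 => key (g.A : ℂ) N t w c0 c1 c2 c3 hw hN ht0 hAn h0 h1 h2 h3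
  refine ⟨?_, ?_, ?_, ?_, ?_⟩
  · apply natAbs_bd
    rw [cA]
    linarith [kk a0 a1 a2 a3 A0 A1 A2 A3]
  · apply natAbs_bd
    rw [cB]
    refine (norm_add₄_le (a := (g.A : ℂ) * (b0 * a1 * a2 * a3))).trans ?_
    linarith [kk b0 a1 a2 a3 B0 A1 A2 A3, kk a0 b1 a2 a3 A0 B1 A2 A3, kk a0 a1 b2 a3 A0 A1 B2 A3,
      kk a0 a1 a2 b3 A0 A1 A2 B3]
  · apply natAbs_bd
    rw [cC]
    have t1 := norm_add_le (g.A * (a0 * a1 * b2 * b3) + g.A * (a0 * b1 * a2 * b3)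
      + g.A * (a0 * b1 * b2 * a3) + g.A * (b0 * a1 * a2 * b3) + g.A * (b0 * a1 * b2 * a3))
      (g.A * (b0 * b1 * a2 * a3))
    have t2 := norm_add_le (g.A * (a0 * a1 * b2 * b3) + g.A * (a0 * b1 * a2 * b3)
      + g.A * (a0 * b1 * b2 * a3) + g.A * (b0 * a1 * a2 * b3)) (g.A * (b0 * a1 * b2 * a3))
    have t3 := norm_add_le (g.A * (a0 * a1 * b2 * b3) + g.A * (a0 * b1 * a2 * b3)
      + g.A * (a0 * b1 * b2 * a3)) (g.A * (b0 * a1 * a2 * b3))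
    have t4 := norm_add_le (g.A * (a0 * a1 * b2 * b3) + g.A * (a0 * b1 * a2 * b3))
      (g.A * (a0 * b1 * b2 * a3))
    have t5 := norm_add_le (g.A * (a0 * a1 * b2 * b3)) (g.A * (a0 * b1 * a2 * b3))
    linarith [kk a0 a1 b2 b3 A0 A1 B2 B3, kk a0 b1 a2 b3 A0 B1 A2 B3, kk a0 b1 b2 a3 A0 B1 B2 A3,
      kk b0 a1 a2 b3 B0 A1 A2 B3, kk b0 a1 b2 a3 B0 A1 B2 A3, kk b0 b1 a2 a3 B0 B1 A2 A3]
  · apply natAbs_bd
    rw [cD]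
    refine (norm_add₄_le (a := (g.A : ℂ) * (a0 * b1 * b2 * b3))).trans ?_
    linarith [kk a0 b1 b2 b3 A0 B1 B2 B3, kk b0 a1 b2 b3 B0 A1 B2 B3, kk b0 b1 a2 b3 B0 B1 A2 B3,
      kk b0 b1 b2 a3 B0 B1 B2 A3]
  · apply natAbs_bd
    rw [cE]
    linarith [kk b0 b1 b2 b3 B0 B1 B2 B3]

end Pool.Agent.H671.QR.F3
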