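import Pool.Agent.H447.QR.Stm2
import Pool.Graph.R_seed8.Helper566.FD.J7

/-!
# QR-RG: from ranks to generators
-/

set_option autoImplicit false

namespace Pool.Agent.H671.QR.RG

open Pool.Agent.H447.QR
open Pool.Agent.Helper566.FD.J7 (prim_int_add prim_int_mul prim_int_neg prim_int_sub prim_pow2
  prim_toNat prim_toNat_neg)

section tools

variable {α β : Type} [Primcodable α] [Primcodable β]

theorem cp_and {p q : α → Prop} (hp : ComputablePred p) (hq : ComputablePred q) :
    ComputablePred (fun a => p a ∧ q a) := by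
  obtain ⟨f, hf, rfl⟩ := ComputablePred.computable_iff.1 hp
  obtain ⟨g, hg, rfl⟩ := ComputablePred.computable_iff.1 hq
  refine ComputablePred.computable_iff.2 ⟨fun a => f a && g a, Primrec.and.to_comp.comp hf hg, ?_⟩
  funext a
  simp

theorem cp_or {p q : α → Prop} (hp : ComputablePred p) (hq : ComputablePred q) :
    ComputablePred (fun a => p a ∨ q a) := by
  obtain ⟨f, hf, rfl⟩ := ComputablePred.computable_iff.1 hp
  obtain ⟨g, hg, rfl⟩ := ComputablePred.computable_iff.1 hq
  refine ComputablePred.computable_iff.2 ⟨fun a => f a || g a, Primrec.or.to_comp.comp hf hg, ?_⟩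
  funext a
  simp

theorem cp_comp {p : β → Prop} {f : α → β} (hp : ComputablePred p) (hf : Computable f) :
    ComputablePred (fun a => p (f a)) := by
  obtain ⟨g, hg, rfl⟩ := ComputablePred.computable_iff.1 hp
  exact ComputablePred.computable_iff.2 ⟨fun a => g (f a), hg.comp hf, rfl⟩

theorem cp_eq [DecidableEq β] {f g : α → β} (hf : Computable f) (hg : Computable g) :
    ComputablePred (fun a => f a = g a) := by
  have h : ComputablePred (fun p : β × β => p.1 = p.2) :=
    PrimrecPred.computablePred (Primrec.eq (α := β))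
  exact cp_comp h (hf.pair hg)

theorem iadd {f g : α → ℤ} (hf : Primrec f) (hg : Primrec g) : Primrec (fun a => f a + g a) :=
  prim_int_add.comp hf hg

theorem isub {f g : α → ℤ} (hf : Primrec f) (hg : Primrec g) : Primrec (fun a => f a - g a) :=
  prim_int_sub.comp hf hg

theorem imul {f g : α → ℤ} (hf : Primrec f) (hg : Primrec g) : Primrec (fun a => f a * g a) :=
  prim_int_mul.comp hf hg

theorem ipow {f : α → ℤ} (hf : Primrec f) (n : ℕ) : Primrec (fun a => f a ^ n) := by
  induction n with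
  | zero => exact (Primrec.const 1).of_eq (fun a => (pow_zero _).symm)
  | succ n ih => exact (imul ih hf).of_eq (fun a => (pow_succ _ _).symm)

theorem nadd {f g : α → ℕ} (hf : Primrec f) (hg : Primrec g) : Primrec (fun a => f a + g a) :=
  Primrec.nat_add.comp hf hg

theorem nmul {f g : α → ℕ} (hf : Primrec f) (hg : Primrec g) : Primrec (fun a => f a * g a) :=
  Primrec.nat_mul.comp hf hg

theorem npow {f : α → ℕ} (hf : Primrec f) (n : ℕ) : Primrec (fun a => f a ^ n) := by
  induction n with
  | zero => exact (Primrec.const 1).of_eq (fun a => (pow_zero _).symm)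
  | succ n ih => exact (nmul ih hf).of_eq (fun a => (pow_succ _ _).symm)

theorem zabs {f : α → ℤ} (hf : Primrec f) : Primrec (fun a => (f a).natAbs) :=
  (Primrec.nat_add.comp (prim_toNat.comp hf) (prim_toNat_neg.comp hf)).of_eq (fun a => by
    omega)

theorem h4_prim {A B C D E x z : α → ℤ} (hA : Primrec A) (hB : Primrec B) (hC : Primrec C)
    (hD : Primrec D) (hE : Primrec E) (hx : Primrec x) (hz : Primrec z) :
    Primrec (fun a => (3 * B a ^ 2 - 8 * A a * C a) * x a ^ 4 +
      4 * (B a * C a - 6 * A a * D a) * x a ^ 3 * z a +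
      2 * (2 * C a ^ 2 - 24 * A a * E a - 3 * B a * D a) * x a ^ 2 * z a ^ 2 +
      4 * (C a * D a - 6 * B a * E a) * x a * z a ^ 3 + (3 * D a ^ 2 - 8 * C a * E a) * z a ^ 4) := by
  repeat' first
    | assumption
    | exact Primrec.const _
    | apply isub
    | apply iadd
    | apply ipow
    | apply imul

theorem sum_prim {f : β → ℕ} (hf : Primrec f) : Primrec (fun l : List β => (l.map f).sum) := by
  have h : Primrec (fun l : List β => l.foldr (fun b s => f b + s) 0) := by
    refine Primrec.list_foldr (α := List β) (β := β) (σ := ℕ) (f := fun l => l) (g := fun _ => 0)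
      (h := fun _ p => f p.1 + p.2) Primrec.id (Primrec.const 0) ?_
    exact nadd (α := List β × (β × ℕ)) (hf.comp (Primrec.fst.comp Primrec.snd))
      (Primrec.snd.comp Primrec.snd)
  refine h.of_eq (fun l => ?_)
  induction l with
  | nil => rfl
  | cons b l ih => simp only [List.foldr_cons, ih, List.map_cons, List.sum_cons]

end tools

theorem pA : Primrec (fun t : T5 => t.1) := Primrec.fst
theorem pB : Primrec (fun t : T5 => t.2.1) := Primrec.fst.comp Primrec.snd
theorem pC : Primrec (fun t : T5 => t.2.2.1) := Primrec.fst.comp (Primrec.snd.comp Primrec.snd)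
theorem pD : Primrec (fun t : T5 => t.2.2.2.1) :=
  Primrec.fst.comp (Primrec.snd.comp (Primrec.snd.comp Primrec.snd))
theorem pE : Primrec (fun t : T5 => t.2.2.2.2) :=
  Primrec.snd.comp (Primrec.snd.comp (Primrec.snd.comp Primrec.snd))

theorem peR : Primrec eR :=
  h4_prim (α := Ent) (pA.comp Primrec.fst) (pB.comp Primrec.fst) (pC.comp Primrec.fst)
    (pD.comp Primrec.fst) (pE.comp Primrec.fst) (Primrec.fst.comp Primrec.snd)
    (Primrec.fst.comp (Primrec.snd.comp Primrec.snd))

theorem peS : Primrec eS :=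
  imul (α := Ent) (Primrec.const 48) (ipow (Primrec.snd.comp (Primrec.snd.comp Primrec.snd)) 2)

theorem pmx : Primrec mxL :=
  Primrec.succ.comp (sum_prim (nadd (zabs peR) (zabs peS)))

theorem pC1 : Primrec (fun c : ℤ × ℤ => C1 c.1 c.2) :=
  nmul (Primrec.const 1000) (npow (nadd (nadd (zabs Primrec.fst) (zabs Primrec.snd))
    (Primrec.const 1)) 5)

theorem pC2 : Primrec (fun c : ℤ × ℤ => C2 c.1 c.2) :=
  nmul (Primrec.const 20) (npow (nadd (nadd (zabs Primrec.fst) (zabs Primrec.snd))
    (Primrec.const 1)) 2)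

theorem t_RG (pg : S_PG) (pv : S_PV) : S_RG := by
  classical
  intro en hen ρ F hρ hF h2
  obtain ⟨-, -, -, -, gnrt⟩ := pg
  have gVL := pv.1
  -- the condition on the list
  obtain ⟨Q, hQdef⟩ : ∃ Q : ℤ × ℤ → List Ent → Prop, Q = fun c L => VL c.1 c.2 L ∧
    L.length + 1 = 2 ^ ρ c * (1 + nrt c.1 c.2) := ⟨_, rfl⟩
  have hQ' : ∀ c L, Q c L ↔ VL c.1 c.2 L ∧
    L.length + 1 = 2 ^ ρ c * (1 + nrt c.1 c.2) := fun c L => by rw [hQdef]
  have hQ : ComputablePred (fun c : (ℤ × ℤ) × List Ent => Q c.1 c.2) := by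
    rw [hQdef]
    apply cp_and
    · exact gVL.computablePred
    · apply cp_eq
      · exact (Primrec.succ.comp (Primrec.list_length.comp Primrec.snd)).to_comp
      · have e1 : Computable (fun c : (ℤ × ℤ) × List Ent => 2 ^ ρ c.1) :=
          prim_pow2.to_comp.comp (hρ.comp Primrec.fst.to_comp)
        have e2 : Computable (fun c : (ℤ × ℤ) × List Ent => 1 + nrt c.1.1 c.1.2) :=
          (Primrec.nat_add.comp (Primrec.const 1) (gnrt.comp Primrec.fst)).to_comp
        exact Primrec.nat_mul.to_comp.comp e1 e2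
  -- decoding
  obtain ⟨dec, hdec⟩ : ∃ dec : ℕ → List Ent,
    dec = fun n => ((Encodable.decode n : Option (List Ent))).getD [] := ⟨_, rfl⟩
  have hdecp : Primrec dec := by
    rw [hdec]
    exact Primrec.option_getD.comp Primrec.decode (Primrec.const [])
  have hdece : ∀ L : List Ent, dec (Encodable.encode L) = L := by
    intro L
    rw [hdec]
    simp
  obtain ⟨R, hRdef⟩ : ∃ R : ℤ × ℤ → ℕ → Prop, R = fun c n => ¬ F c ∨ Q c (dec n) := ⟨_, rfl⟩
  have hR' : ∀ c n, R c n ↔ ¬ F c ∨ Q c (dec n) := fun c n => by rw [hRdef]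
  have hR : ComputablePred (fun c : (ℤ × ℤ) × ℕ => R c.1 c.2) := by
    rw [hRdef]
    apply cp_or
    · exact (cp_comp hF Computable.fst).not
    · exact cp_comp (f := fun c : (ℤ × ℤ) × ℕ => (c.1, dec c.2)) hQ
        (Primrec.pair Primrec.fst (hdecp.comp Primrec.snd)).to_comp
  have hex : ∀ c, ∃ n, R c n := by
    intro c
    by_cases hFc : F c
    · obtain ⟨L, hL⟩ := h2 c hFc
      refine ⟨Encodable.encode L, ?_⟩
      rw [hR', hdece]
      right
      rw [hQ']
      exact hL
    · exact ⟨0, (hR' c 0).2 (Or.inl hFc)⟩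
  have hfind : Computable (fun c => Nat.find (hex c)) := Computable.find hR hex
  obtain ⟨g, hg⟩ : ∃ g : ℤ × ℤ → List Ent, g = fun c => dec (Nat.find (hex c)) := ⟨_, rfl⟩
  have hgc : Computable g := by
    rw [hg]
    exact hdecp.to_comp.comp hfind
  have hgQ : ∀ c, F c → Q c (g c) := by
    intro c hFc
    have h := Nat.find_spec (hex c)
    rw [hR'] at h
    rw [hg]
    exact h.resolve_left (fun h' => h' hFc)
  refine ⟨fun c => en (c, C1 c.1 c.2 * C2 c.1 c.2 * mxL (g c) ^ 2), ?_, ?_⟩
  · have hm : Primrec (fun p : (ℤ × ℤ) × List Ent =>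
        en (p.1, C1 p.1.1 p.1.2 * C2 p.1.1 p.1.2 * mxL p.2 ^ 2)) :=
      hen.comp (Primrec.pair Primrec.fst (nmul (nmul (pC1.comp Primrec.fst)
        (pC2.comp Primrec.fst)) (npow (pmx.comp Primrec.snd) 2)))
    exact hm.to_comp.comp (Computable.id.pair hgc)
  · intro c hc
    have h := (hQ' c (g c)).1 (hgQ c hc)
    exact ⟨g c, h.1, h.2, rfl⟩

end Pool.Agent.H671.QR.RG
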