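import Pool.Agent.H447.QR.Stm2

/-!
# Task QR-ADD for helper447: correctness of the addition in Jacobian coordinates
-/

set_option autoImplicit false

open WeierstrassCurve Pool.Agent.H447.QR

namespace Pool.Agent.H721.QR.ADD

theorem eq_of_ns (a b X Y : ℚ) (h : (crv a b).toAffine.Nonsingular X Y) :
    Y ^ 2 = X ^ 3 + a * X + b := by
  have h1 := (Affine.equation_iff _ _).mp h.1
  simp only [zero_mul, add_zero] at h1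
  exact h1

theorem ns_of_eq (a b X Y : ℚ) (hD : 4 * a ^ 3 + 27 * b ^ 2 ≠ 0)
    (h : Y ^ 2 = X ^ 3 + a * X + b) : (crv a b).toAffine.Nonsingular X Y := by
  have hΔ : (crv a b).Δ ≠ 0 := by
    have h1 : (crv a b).Δ = -16 * (4 * a ^ 3 + 27 * b ^ 2) := by
      simp only [WeierstrassCurve.Δ, WeierstrassCurve.b₂, WeierstrassCurve.b₄,
        WeierstrassCurve.b₆, WeierstrassCurve.b₈]
      ring
    rw [h1]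
    exact mul_ne_zero (by norm_num) hD
  refine (Affine.equation_iff_nonsingular_of_Δ_ne_zero hΔ).mp ?_
  rw [Affine.equation_iff]
  simp only [zero_mul, add_zero]
  exact h

theorem some_congr (a b X Y X' Y' : ℚ) (h : (crv a b).toAffine.Nonsingular X Y)
    (h' : (crv a b).toAffine.Nonsingular X' Y') (hX : X = X') (hY : Y = Y') :
    Affine.Point.some X Y h = Affine.Point.some X' Y' h' := by
  subst hX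
  subst hY
  rfl

theorem pt_zero (a b : ℤ) (p : Tr) (h : p.2.2 = 0) : pt a b p = 0 := by
  unfold pt
  rw [dif_neg]
  exact fun h1 => h1.1 h

theorem pt_eq (a b : ℤ) (p : Tr) (X Y : ℚ)
    (h : (crv (a : ℚ) (b : ℚ)).toAffine.Nonsingular X Y) (ht : p.2.2 ≠ 0)
    (hX : (p.1 : ℚ) / (p.2.2 : ℚ) ^ 2 = X) (hY : (p.2.1 : ℚ) / (p.2.2 : ℚ) ^ 3 = Y) :
    pt a b p = Affine.Point.some X Y h := by
  subst hX
  subst hY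
  unfold pt
  rw [dif_pos ⟨ht, h⟩]

theorem onC_of (a b : ℤ) (p : Tr) (X Y : ℚ)
    (h : (crv (a : ℚ) (b : ℚ)).toAffine.Nonsingular X Y) (ht : p.2.2 ≠ 0)
    (hX : (p.1 : ℚ) / (p.2.2 : ℚ) ^ 2 = X) (hY : (p.2.1 : ℚ) / (p.2.2 : ℚ) ^ 3 = Y) :
    OnC a b p := by
  refine ⟨ht, ?_⟩
  have h1 := eq_of_ns _ _ _ _ h
  rw [← hX, ← hY] at h1
  have h2 : (p.2.2 : ℚ) ≠ 0 := by exact_mod_cast ht
  have h3 : (p.2.1 : ℚ) ^ 2 =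
      (p.1 : ℚ) ^ 3 + a * p.1 * (p.2.2 : ℚ) ^ 4 + b * (p.2.2 : ℚ) ^ 6 := by
    field_simp at h1
    linear_combination h1
  exact_mod_cast h3

theorem ns_of_onC (a b : ℤ) (hD : 4 * a ^ 3 + 27 * b ^ 2 ≠ 0) (p : Tr) (h : OnC a b p) :
    (crv (a : ℚ) (b : ℚ)).toAffine.Nonsingular ((p.1 : ℚ) / (p.2.2 : ℚ) ^ 2)
      ((p.2.1 : ℚ) / (p.2.2 : ℚ) ^ 3) := by
  refine ns_of_eq _ _ _ _ (by exact_mod_cast hD) ?_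
  have h2 : (p.2.2 : ℚ) ≠ 0 := by exact_mod_cast h.1
  have h3 : (p.2.1 : ℚ) ^ 2 =
      (p.1 : ℚ) ^ 3 + a * p.1 * (p.2.2 : ℚ) ^ 4 + b * (p.2.2 : ℚ) ^ 6 := by
    exact_mod_cast h.2
  field_simp
  linear_combination h3

/-- the sum of two points with different first coordinates -/
theorem add_ne (a b x₁ y₁ x₂ y₂ : ℚ) (h₁ : (crv a b).toAffine.Nonsingular x₁ y₁)
    (h₂ : (crv a b).toAffine.Nonsingular x₂ y₂) (hx : x₁ ≠ x₂) :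
    ∃ h : (crv a b).toAffine.Nonsingular (((y₁ - y₂) / (x₁ - x₂)) ^ 2 - x₁ - x₂)
      (-((y₁ - y₂) / (x₁ - x₂) * ((((y₁ - y₂) / (x₁ - x₂)) ^ 2 - x₁ - x₂) - x₁) + y₁)),
      Affine.Point.some x₁ y₁ h₁ + Affine.Point.some x₂ y₂ h₂ = Affine.Point.some _ _ h := by
  have h0 := Affine.nonsingular_add h₁ h₂ fun hxy => hx hxy.left
  have e1 : (crv a b).toAffine.addX x₁ x₂ ((crv a b).toAffine.slope x₁ x₂ y₁ y₂) =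
      ((y₁ - y₂) / (x₁ - x₂)) ^ 2 - x₁ - x₂ := by
    rw [Affine.slope_of_X_ne hx]
    simp only [Affine.addX]
    ring
  have e2 : (crv a b).toAffine.addY x₁ x₂ y₁ ((crv a b).toAffine.slope x₁ x₂ y₁ y₂) =
      -((y₁ - y₂) / (x₁ - x₂) * ((((y₁ - y₂) / (x₁ - x₂)) ^ 2 - x₁ - x₂) - x₁) + y₁) := by
    rw [Affine.slope_of_X_ne hx]
    simp only [Affine.addY, Affine.negY, Affine.negAddY, Affine.addX]
    ring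
  have h : (crv a b).toAffine.Nonsingular (((y₁ - y₂) / (x₁ - x₂)) ^ 2 - x₁ - x₂)
      (-((y₁ - y₂) / (x₁ - x₂) * ((((y₁ - y₂) / (x₁ - x₂)) ^ 2 - x₁ - x₂) - x₁) + y₁)) := by
    rw [← e2, ← e1]
    exact h0
  refine ⟨h, ?_⟩
  rw [Affine.Point.add_of_X_ne hx]
  exact some_congr _ _ _ _ _ _ _ _ e1 e2

/-- doubling -/
theorem add_self (a b x₁ y₁ : ℚ) (h₁ : (crv a b).toAffine.Nonsingular x₁ y₁) (hy : y₁ ≠ 0) :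
    ∃ h : (crv a b).toAffine.Nonsingular (((3 * x₁ ^ 2 + a) / (2 * y₁)) ^ 2 - x₁ - x₁)
      (-((3 * x₁ ^ 2 + a) / (2 * y₁) * ((((3 * x₁ ^ 2 + a) / (2 * y₁)) ^ 2 - x₁ - x₁) - x₁) +
        y₁)),
      Affine.Point.some x₁ y₁ h₁ + Affine.Point.some x₁ y₁ h₁ = Affine.Point.some _ _ h := by
  have hy' : y₁ ≠ (crv a b).toAffine.negY x₁ y₁ := by
    simp only [Affine.negY]
    intro h
    apply hy
    linarith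
  have h0 := Affine.nonsingular_add h₁ h₁ fun hxy => hy' hxy.right
  have es : (crv a b).toAffine.slope x₁ x₁ y₁ y₁ = (3 * x₁ ^ 2 + a) / (2 * y₁) := by
    rw [Affine.slope_of_Y_ne rfl hy']
    simp only [Affine.negY]
    congr 1 <;> ring
  have e1 : (crv a b).toAffine.addX x₁ x₁ ((crv a b).toAffine.slope x₁ x₁ y₁ y₁) =
      ((3 * x₁ ^ 2 + a) / (2 * y₁)) ^ 2 - x₁ - x₁ := by
    rw [es]
    simp only [Affine.addX]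
    ring
  have e2 : (crv a b).toAffine.addY x₁ x₁ y₁ ((crv a b).toAffine.slope x₁ x₁ y₁ y₁) =
      -((3 * x₁ ^ 2 + a) / (2 * y₁) * ((((3 * x₁ ^ 2 + a) / (2 * y₁)) ^ 2 - x₁ - x₁) - x₁) +
        y₁) := by
    rw [es]
    simp only [Affine.addY, Affine.negY, Affine.negAddY, Affine.addX]
    ring
  have h : (crv a b).toAffine.Nonsingular (((3 * x₁ ^ 2 + a) / (2 * y₁)) ^ 2 - x₁ - x₁)
      (-((3 * x₁ ^ 2 + a) / (2 * y₁) * ((((3 * x₁ ^ 2 + a) / (2 * y₁)) ^ 2 - x₁ - x₁) - x₁) +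
        y₁)) := by
    rw [← e2, ← e1]
    exact h0
  refine ⟨h, ?_⟩
  rw [Affine.Point.add_self_of_Y_ne hy']
  exact some_congr _ _ _ _ _ _ _ _ e1 e2

theorem eXq (r₁ t₁ r₂ t₂ H R : ℚ) (h1 : t₁ ≠ 0) (h2 : t₂ ≠ 0) (hH : H ≠ 0)
    (hd : r₂ * t₁ ^ 2 - r₁ * t₂ ^ 2 = H) :
    (R ^ 2 - H ^ 3 - 2 * (r₁ * t₂ ^ 2) * H ^ 2) / (H * t₁ * t₂) ^ 2 =
      (R / (H * t₁ * t₂)) ^ 2 - r₁ / t₁ ^ 2 - r₂ / t₂ ^ 2 := by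
  have h3 : r₂ = (H + r₁ * t₂ ^ 2) / t₁ ^ 2 := by
    rw [eq_div_iff (pow_ne_zero 2 h1)]
    linear_combination hd
  rw [h3]
  field_simp
  ring

theorem eYq (r₁ n₁ t₁ r₂ t₂ H R : ℚ) (h1 : t₁ ≠ 0) (h2 : t₂ ≠ 0) (hH : H ≠ 0)
    (hd : r₂ * t₁ ^ 2 - r₁ * t₂ ^ 2 = H) :
    (R * ((r₁ * t₂ ^ 2) * H ^ 2 - (R ^ 2 - H ^ 3 - 2 * (r₁ * t₂ ^ 2) * H ^ 2)) -
        (n₁ * t₂ ^ 3) * H ^ 3) / (H * t₁ * t₂) ^ 3 =
      -(R / (H * t₁ * t₂) * (((R / (H * t₁ * t₂)) ^ 2 - r₁ / t₁ ^ 2 - r₂ / t₂ ^ 2) -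
        r₁ / t₁ ^ 2) + n₁ / t₁ ^ 3) := by
  rw [← eXq r₁ t₁ r₂ t₂ H R h1 h2 hH hd]
  field_simp
  ring

theorem t_ADD : S_ADD := by
  intro a b hD p q hp hq
  by_cases hp0 : p.2.2 = 0
  · have h1 : addT a p q = q := by
      unfold addT
      rw [if_pos hp0]
    rw [h1, pt_zero a b p hp0, zero_add]
    exact ⟨hq, rfl⟩
  by_cases hq0 : q.2.2 = 0
  · have h1 : addT a p q = p := by
      unfold addT
      rw [if_neg hp0, if_pos hq0]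
    rw [h1, pt_zero a b q hq0, add_zero]
    exact ⟨hp, rfl⟩
  have hpC : OnC a b p := hp.resolve_left hp0
  have hqC : OnC a b q := hq.resolve_left hq0
  have hpn := ns_of_onC a b hD p hpC
  have hqn := ns_of_onC a b hD q hqC
  have ep := pt_eq a b p _ _ hpn hp0 rfl rfl
  have eq' := pt_eq a b q _ _ hqn hq0 rfl rfl
  have t1 : (p.2.2 : ℚ) ≠ 0 := by exact_mod_cast hp0
  have t2 : (q.2.2 : ℚ) ≠ 0 := by exact_mod_cast hq0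
  by_cases hU : p.1 * q.2.2 ^ 2 = q.1 * p.2.2 ^ 2
  · have hUq : (p.1 : ℚ) * (q.2.2 : ℚ) ^ 2 = q.1 * (p.2.2 : ℚ) ^ 2 := by exact_mod_cast hU
    have hx : (p.1 : ℚ) / (p.2.2 : ℚ) ^ 2 = (q.1 : ℚ) / (q.2.2 : ℚ) ^ 2 := by
      rw [div_eq_div_iff (pow_ne_zero 2 t1) (pow_ne_zero 2 t2)]
      exact hUq
    by_cases hS : p.2.1 * q.2.2 ^ 3 = q.2.1 * p.2.2 ^ 3 ∧ p.2.1 ≠ 0
    · have h1 : addT a p q =
          ((3 * p.1 ^ 2 + a * p.2.2 ^ 4) ^ 2 - 2 * (4 * p.1 * p.2.1 ^ 2),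
            (3 * p.1 ^ 2 + a * p.2.2 ^ 4) * ((4 * p.1 * p.2.1 ^ 2) -
              ((3 * p.1 ^ 2 + a * p.2.2 ^ 4) ^ 2 - 2 * (4 * p.1 * p.2.1 ^ 2))) -
              8 * p.2.1 ^ 4, 2 * p.2.1 * p.2.2) := by
        unfold addT
        rw [if_neg hp0, if_neg hq0]
        simp only
        rw [if_pos hU, if_pos hS]
      have hSq : (p.2.1 : ℚ) * (q.2.2 : ℚ) ^ 3 = q.2.1 * (p.2.2 : ℚ) ^ 3 := by
        exact_mod_cast hS.1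
      have hy : (p.2.1 : ℚ) / (p.2.2 : ℚ) ^ 3 = (q.2.1 : ℚ) / (q.2.2 : ℚ) ^ 3 := by
        rw [div_eq_div_iff (pow_ne_zero 3 t1) (pow_ne_zero 3 t2)]
        exact hSq
      have n1 : (p.2.1 : ℚ) ≠ 0 := by exact_mod_cast hS.2
      have hPQ : pt a b q = pt a b p := by
        rw [ep, eq']
        exact some_congr _ _ _ _ _ _ _ _ hx.symm hy.symm
      obtain ⟨h, h2⟩ := add_self _ _ _ _ hpn (div_ne_zero n1 (pow_ne_zero 3 t1))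
      have hZ : (2 * p.2.1 * p.2.2 : ℤ) ≠ 0 :=
        mul_ne_zero (mul_ne_zero (by norm_num) hS.2) hp0
      have hZq : ((2 * p.2.1 * p.2.2 : ℤ) : ℚ) ≠ 0 := by exact_mod_cast hZ
      rw [hPQ, ep, h2, h1]
      refine ⟨Or.inr (onC_of a b _ _ _ h hZ ?_ ?_), pt_eq a b _ _ _ h hZ ?_ ?_⟩
      all_goals
        push_cast
        field_simp
        ring
    · have h1 : addT a p q = (1, 1, 0) := by
        unfold addT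
        rw [if_neg hp0, if_neg hq0]
        simp only
        rw [if_pos hU, if_neg hS]
      rw [h1]
      refine ⟨Or.inl rfl, ?_⟩
      rw [pt_zero a b _ rfl, ep, eq']
      symm
      refine Affine.Point.add_of_Y_eq hx ?_
      have hY := Affine.Y_eq_of_X_eq hpn.1 hqn.1 hx
      rcases hY with hY | hY
      · have hSi : p.2.1 * q.2.2 ^ 3 = q.2.1 * p.2.2 ^ 3 := by
          rw [div_eq_div_iff (pow_ne_zero 3 t1) (pow_ne_zero 3 t2)] at hY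
          exact_mod_cast hY
        have hn : p.2.1 = 0 := by
          by_contra hc
          exact hS ⟨hSi, hc⟩
        rw [← hY, hn]
        simp only [Affine.negY]
        simp
      · exact hY
  · have hUq : (p.1 : ℚ) * (q.2.2 : ℚ) ^ 2 ≠ q.1 * (p.2.2 : ℚ) ^ 2 := by exact_mod_cast hU
    have hx : (p.1 : ℚ) / (p.2.2 : ℚ) ^ 2 ≠ (q.1 : ℚ) / (q.2.2 : ℚ) ^ 2 := by
      rw [Ne, div_eq_div_iff (pow_ne_zero 2 t1) (pow_ne_zero 2 t2)]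
      exact hUq
    obtain ⟨h, h2⟩ := add_ne _ _ _ _ _ _ hpn hqn hx
    have h1 : addT a p q =
        ((q.2.1 * p.2.2 ^ 3 - p.2.1 * q.2.2 ^ 3) ^ 2 - (q.1 * p.2.2 ^ 2 - p.1 * q.2.2 ^ 2) ^ 3 -
            2 * (p.1 * q.2.2 ^ 2) * (q.1 * p.2.2 ^ 2 - p.1 * q.2.2 ^ 2) ^ 2,
          (q.2.1 * p.2.2 ^ 3 - p.2.1 * q.2.2 ^ 3) * ((p.1 * q.2.2 ^ 2) *
            (q.1 * p.2.2 ^ 2 - p.1 * q.2.2 ^ 2) ^ 2 -
            ((q.2.1 * p.2.2 ^ 3 - p.2.1 * q.2.2 ^ 3) ^ 2 -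
              (q.1 * p.2.2 ^ 2 - p.1 * q.2.2 ^ 2) ^ 3 -
            2 * (p.1 * q.2.2 ^ 2) * (q.1 * p.2.2 ^ 2 - p.1 * q.2.2 ^ 2) ^ 2)) -
            (p.2.1 * q.2.2 ^ 3) * (q.1 * p.2.2 ^ 2 - p.1 * q.2.2 ^ 2) ^ 3,
          (q.1 * p.2.2 ^ 2 - p.1 * q.2.2 ^ 2) * p.2.2 * q.2.2) := by
      unfold addT
      rw [if_neg hp0, if_neg hq0]
      simp only
      rw [if_neg hU]
    have hH : q.1 * p.2.2 ^ 2 - p.1 * q.2.2 ^ 2 ≠ 0 := fun hc => hU (sub_eq_zero.mp hc).symm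
    have hHq : (q.1 : ℚ) * (p.2.2 : ℚ) ^ 2 - p.1 * (q.2.2 : ℚ) ^ 2 ≠ 0 :=
      fun hc => hUq (sub_eq_zero.mp hc).symm
    have hZ : (q.1 * p.2.2 ^ 2 - p.1 * q.2.2 ^ 2) * p.2.2 * q.2.2 ≠ 0 :=
      mul_ne_zero (mul_ne_zero hH hp0) hq0
    have hsl : ((p.2.1 : ℚ) / (p.2.2 : ℚ) ^ 3 - (q.2.1 : ℚ) / (q.2.2 : ℚ) ^ 3) /
        ((p.1 : ℚ) / (p.2.2 : ℚ) ^ 2 - (q.1 : ℚ) / (q.2.2 : ℚ) ^ 2) =
        ((q.2.1 : ℚ) * (p.2.2 : ℚ) ^ 3 - p.2.1 * (q.2.2 : ℚ) ^ 3) /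
          (((q.1 : ℚ) * (p.2.2 : ℚ) ^ 2 - p.1 * (q.2.2 : ℚ) ^ 2) * p.2.2 * q.2.2) := by
      have hd : (p.1 : ℚ) / (p.2.2 : ℚ) ^ 2 - (q.1 : ℚ) / (q.2.2 : ℚ) ^ 2 =
          -((q.1 : ℚ) * (p.2.2 : ℚ) ^ 2 - p.1 * (q.2.2 : ℚ) ^ 2) /
            ((p.2.2 : ℚ) ^ 2 * (q.2.2 : ℚ) ^ 2) := by
        field_simp
        ring
      have hn : (p.2.1 : ℚ) / (p.2.2 : ℚ) ^ 3 - (q.2.1 : ℚ) / (q.2.2 : ℚ) ^ 3 =
          -((q.2.1 : ℚ) * (p.2.2 : ℚ) ^ 3 - p.2.1 * (q.2.2 : ℚ) ^ 3) /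
            ((p.2.2 : ℚ) ^ 3 * (q.2.2 : ℚ) ^ 3) := by
        field_simp
        ring
      rw [hd, hn]
      generalize (q.1 : ℚ) * (p.2.2 : ℚ) ^ 2 - p.1 * (q.2.2 : ℚ) ^ 2 = H at hHq ⊢
      generalize (q.2.1 : ℚ) * (p.2.2 : ℚ) ^ 3 - p.2.1 * (q.2.2 : ℚ) ^ 3 = R
      field_simp
    rw [ep, eq', h2, h1]
    have eX : (((q.2.1 * p.2.2 ^ 3 - p.2.1 * q.2.2 ^ 3) ^ 2 -
        (q.1 * p.2.2 ^ 2 - p.1 * q.2.2 ^ 2) ^ 3 -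
            2 * (p.1 * q.2.2 ^ 2) * (q.1 * p.2.2 ^ 2 - p.1 * q.2.2 ^ 2) ^ 2 : ℤ) : ℚ) /
          (((q.1 * p.2.2 ^ 2 - p.1 * q.2.2 ^ 2) * p.2.2 * q.2.2 : ℤ) : ℚ) ^ 2 =
        (((p.2.1 : ℚ) / (p.2.2 : ℚ) ^ 3 - (q.2.1 : ℚ) / (q.2.2 : ℚ) ^ 3) /
        ((p.1 : ℚ) / (p.2.2 : ℚ) ^ 2 - (q.1 : ℚ) / (q.2.2 : ℚ) ^ 2)) ^ 2 -
          (p.1 : ℚ) / (p.2.2 : ℚ) ^ 2 - (q.1 : ℚ) / (q.2.2 : ℚ) ^ 2 := by
      rw [hsl]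
      push_cast
      exact eXq _ _ _ _ _ _ t1 t2 hHq rfl
    have eY : (((q.2.1 * p.2.2 ^ 3 - p.2.1 * q.2.2 ^ 3) * ((p.1 * q.2.2 ^ 2) *
            (q.1 * p.2.2 ^ 2 - p.1 * q.2.2 ^ 2) ^ 2 -
            ((q.2.1 * p.2.2 ^ 3 - p.2.1 * q.2.2 ^ 3) ^ 2 -
              (q.1 * p.2.2 ^ 2 - p.1 * q.2.2 ^ 2) ^ 3 -
            2 * (p.1 * q.2.2 ^ 2) * (q.1 * p.2.2 ^ 2 - p.1 * q.2.2 ^ 2) ^ 2)) -
            (p.2.1 * q.2.2 ^ 3) * (q.1 * p.2.2 ^ 2 - p.1 * q.2.2 ^ 2) ^ 3 : ℤ) : ℚ) /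
          (((q.1 * p.2.2 ^ 2 - p.1 * q.2.2 ^ 2) * p.2.2 * q.2.2 : ℤ) : ℚ) ^ 3 =
        -(((p.2.1 : ℚ) / (p.2.2 : ℚ) ^ 3 - (q.2.1 : ℚ) / (q.2.2 : ℚ) ^ 3) /
        ((p.1 : ℚ) / (p.2.2 : ℚ) ^ 2 - (q.1 : ℚ) / (q.2.2 : ℚ) ^ 2) *
          (((((p.2.1 : ℚ) / (p.2.2 : ℚ) ^ 3 - (q.2.1 : ℚ) / (q.2.2 : ℚ) ^ 3) /
        ((p.1 : ℚ) / (p.2.2 : ℚ) ^ 2 - (q.1 : ℚ) / (q.2.2 : ℚ) ^ 2)) ^ 2 -
          (p.1 : ℚ) / (p.2.2 : ℚ) ^ 2 - (q.1 : ℚ) / (q.2.2 : ℚ) ^ 2) -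
            (p.1 : ℚ) / (p.2.2 : ℚ) ^ 2) + (p.2.1 : ℚ) / (p.2.2 : ℚ) ^ 3) := by
      rw [hsl]
      push_cast
      exact eYq _ _ _ _ _ _ _ t1 t2 hHq rfl
    exact ⟨Or.inr (onC_of a b _ _ _ h hZ eX eY), pt_eq a b _ _ _ h hZ eX eY⟩

end Pool.Agent.H721.QR.ADD
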