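import Pool.Agent.H447.QR.Stm2
import Pool.Graph.R_seed8.Helper566.FD.J7

/-!
# QR-EN (helper725): enumeration of the points of bounded height

The proof that all triples of the box contain every point uses the shape of the rational points; the
proof of `shape` is the one of helper278 (QR-SA) with more output. The wrappers of the integer primitive
recursive functions are those of helper668 (QR-PV).
-/

set_option autoImplicit false

open WeierstrassCurve

namespace Pool.Agent.H725.QR.EN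

open Pool.Agent.H447.QR
open Pool.Agent.Helper566.FD.J7 (prim_int_add prim_int_mul prim_int_neg prim_int_sub prim_int_le
  prim_toNat prim_natCast prim_toNat_neg)

/-! ### the shape of the rational points -/

/-- the shape of the rational points of `y² = x³ + a x + b` -/
theorem shape (a b : ℤ) (X Y : ℚ) (h : Y ^ 2 = X ^ 3 + a * X + b) :
    ∃ s : ℕ, 0 < s ∧ X.den = s ^ 2 ∧ Y.den = s ^ 3 ∧
      Y.num ^ 2 = X.num ^ 3 + a * X.num * (s : ℤ) ^ 4 + b * (s : ℤ) ^ 6 := by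
  have hd0 : (X.den : ℚ) ≠ 0 := by exact_mod_cast X.den_nz
  have he0 : (Y.den : ℚ) ≠ 0 := by exact_mod_cast Y.den_nz
  have hX : X * X.den = X.num := Rat.mul_den_eq_num X
  have hY : Y * Y.den = Y.num := Rat.mul_den_eq_num Y
  -- the integral equation
  have h1 : (Y.num : ℚ) ^ 2 * (X.den : ℚ) ^ 3 =
      ((X.num : ℚ) ^ 3 + a * X.num * (X.den : ℚ) ^ 2 + b * (X.den : ℚ) ^ 3) * (Y.den : ℚ) ^ 2 := by
    rw [← hX, ← hY]
    linear_combination (Y.den : ℚ) ^ 2 * (X.den : ℚ) ^ 3 * h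
  have h2 : Y.num ^ 2 * (X.den : ℤ) ^ 3 =
      (X.num ^ 3 + a * X.num * (X.den : ℤ) ^ 2 + b * (X.den : ℤ) ^ 3) * (Y.den : ℤ) ^ 2 := by
    exact_mod_cast h1
  have hc1 : IsCoprime X.num (X.den : ℤ) := Int.isCoprime_iff_gcd_eq_one.2 X.reduced
  have hc2 : IsCoprime Y.num (Y.den : ℤ) := Int.isCoprime_iff_gcd_eq_one.2 Y.reduced
  have hc3 : IsCoprime (X.num ^ 3 + a * X.num * (X.den : ℤ) ^ 2 + b * (X.den : ℤ) ^ 3)
      (X.den : ℤ) := by
    have h3 : IsCoprime (X.num ^ 3) (X.den : ℤ) := hc1.pow_left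
    have h4 := h3.add_mul_left_left (a * X.num * (X.den : ℤ) + b * (X.den : ℤ) ^ 2)
    have h5 : X.num ^ 3 + (X.den : ℤ) * (a * X.num * (X.den : ℤ) + b * (X.den : ℤ) ^ 2) =
      X.num ^ 3 + a * X.num * (X.den : ℤ) ^ 2 + b * (X.den : ℤ) ^ 3 := by ring
    rwa [h5] at h4
  have hdvd1 : (X.den : ℤ) ^ 3 ∣ (Y.den : ℤ) ^ 2 := by
    have h6 : (X.den : ℤ) ^ 3 ∣
        (X.num ^ 3 + a * X.num * (X.den : ℤ) ^ 2 + b * (X.den : ℤ) ^ 3) * (Y.den : ℤ) ^ 2 := by
      rw [← h2]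
      exact Dvd.intro_left _ rfl
    exact (hc3.symm.pow_left (m := 3)).dvd_of_dvd_mul_left h6
  have hdvd2 : (Y.den : ℤ) ^ 2 ∣ (X.den : ℤ) ^ 3 := by
    have h6 : (Y.den : ℤ) ^ 2 ∣ Y.num ^ 2 * (X.den : ℤ) ^ 3 := by
      rw [h2]
      exact Dvd.intro_left _ rfl
    exact (hc2.symm.pow (m := 2) (n := 2)).dvd_of_dvd_mul_left h6
  have heq : X.den ^ 3 = Y.den ^ 2 := by
    apply Nat.dvd_antisymm
    · exact_mod_cast hdvd1
    · exact_mod_cast hdvd2
  have hde : X.den ∣ Y.den := by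
    rw [← Nat.pow_dvd_pow_iff (two_ne_zero), ← heq]
    exact ⟨X.den, by ring⟩
  obtain ⟨s, hs⟩ := hde
  have hdpos : 0 < X.den := X.den_pos
  have hss : X.den = s ^ 2 := by
    rw [hs] at heq
    have h7 : X.den ^ 2 * X.den = X.den ^ 2 * s ^ 2 := by
      calc X.den ^ 2 * X.den = X.den ^ 3 := by ring
        _ = (X.den * s) ^ 2 := heq
        _ = X.den ^ 2 * s ^ 2 := by ring
    exact Nat.eq_of_mul_eq_mul_left (by positivity) h7
  have hs3 : Y.den = s ^ 3 := by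
    rw [hs, hss]
    ring
  have hspos : 0 < s := by
    rcases Nat.eq_zero_or_pos s with h0 | h0
    · rw [h0] at hss
      norm_num at hss
    · exact h0
  refine ⟨s, hspos, hss, hs3, ?_⟩
  have h8 : (X.den : ℤ) = (s : ℤ) ^ 2 := by exact_mod_cast hss
  have h9 : (Y.den : ℤ) = (s : ℤ) ^ 3 := by exact_mod_cast hs3
  rw [h8, h9] at h2
  have hs6 : ((s : ℤ) ^ 6) ≠ 0 := by
    have : (s : ℤ) ≠ 0 := by exact_mod_cast hspos.ne'
    positivity
  apply mul_right_cancel₀ hs6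
  linear_combination h2

/-- the bound for the second coordinate -/
theorem nbd (a b r q : ℤ) (s B : ℕ) (hr : r.natAbs ≤ B) (hs : s ≤ B)
    (h : q ^ 2 = r ^ 3 + a * r * (s : ℤ) ^ 4 + b * (s : ℤ) ^ 6) :
    q.natAbs ≤ (a.natAbs + b.natAbs + 1) * (B + 1) ^ 6 := by
  set m : ℕ := a.natAbs + b.natAbs + 1 with hm
  have h1 : q.natAbs ^ 2 ≤ m * (B + 1) ^ 6 := by
    have e1 : q.natAbs ^ 2 = (q ^ 2).natAbs := (Int.natAbs_pow q 2).symm
    rw [e1, h]
    have e2 : (r ^ 3 + a * r * (s : ℤ) ^ 4 + b * (s : ℤ) ^ 6).natAbs ≤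
        r.natAbs ^ 3 + a.natAbs * r.natAbs * s ^ 4 + b.natAbs * s ^ 6 := by
      refine (Int.natAbs_add_le _ _).trans (add_le_add ((Int.natAbs_add_le _ _).trans
        (add_le_add (le_of_eq ?_) (le_of_eq ?_))) (le_of_eq ?_))
      · rw [Int.natAbs_pow]
      · rw [Int.natAbs_mul, Int.natAbs_mul, Int.natAbs_pow, Int.natAbs_natCast]
      · rw [Int.natAbs_mul, Int.natAbs_pow, Int.natAbs_natCast]
    refine e2.trans ?_
    have hr' : r.natAbs ≤ B + 1 := hr.trans (Nat.le_succ B)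
    have hs' : s ≤ B + 1 := hs.trans (Nat.le_succ B)
    have hB : 1 ≤ B + 1 := Nat.succ_pos B
    have p3 : r.natAbs ^ 3 ≤ (B + 1) ^ 6 :=
      (Nat.pow_le_pow_left hr' 3).trans (Nat.pow_le_pow_right hB (by norm_num))
    have p5 : r.natAbs * s ^ 4 ≤ (B + 1) ^ 6 := by
      refine (Nat.mul_le_mul hr' (Nat.pow_le_pow_left hs' 4)).trans ?_
      have : (B + 1) * (B + 1) ^ 4 = (B + 1) ^ 5 := by ring
      rw [this]
      exact Nat.pow_le_pow_right hB (by norm_num)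
    have p6 : s ^ 6 ≤ (B + 1) ^ 6 := Nat.pow_le_pow_left hs' 6
    calc r.natAbs ^ 3 + a.natAbs * r.natAbs * s ^ 4 + b.natAbs * s ^ 6
        = r.natAbs ^ 3 + a.natAbs * (r.natAbs * s ^ 4) + b.natAbs * s ^ 6 := by
          rw [Nat.mul_assoc]
      _ ≤ (B + 1) ^ 6 + a.natAbs * (B + 1) ^ 6 + b.natAbs * (B + 1) ^ 6 :=
          add_le_add (add_le_add p3 (Nat.mul_le_mul_left _ p5)) (Nat.mul_le_mul_left _ p6)
      _ = m * (B + 1) ^ 6 := by rw [hm]; ring
  exact (Nat.le_self_pow two_ne_zero _).trans h1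

/-! ### the enumeration -/

/-- the bound -/
def Nb (c : (ℤ × ℤ) × ℕ) : ℕ := (c.1.1.natAbs + c.1.2.natAbs + 1) * (c.2 + 1) ^ 6

/-- the triple with the given indices -/
def tr (c : (ℤ × ℤ) × ℕ) (i j k : ℕ) : Tr := ((i : ℤ) - (c.2 : ℤ), (j : ℤ) - (Nb c : ℤ), (k : ℤ))

/-- the test -/
def T (c : (ℤ × ℤ) × ℕ) (p : Tr) : Prop :=
  ¬ p.2.2 = 0 ∧ p.2.1 ^ 2 = p.1 ^ 3 + c.1.1 * p.1 * p.2.2 ^ 4 + c.1.2 * p.2.2 ^ 6

instance (c : (ℤ × ℤ) × ℕ) : DecidablePred (T c) := fun p => by unfold T; infer_instance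

/-- the output -/
def out (c : (ℤ × ℤ) × ℕ) (p : Tr) : Option Tr := if T c p then some p else none

/-- all triples of the box -/
def box (c : (ℤ × ℤ) × ℕ) : List Tr :=
  (List.range (2 * c.2 + 1)).flatMap fun i => (List.range (2 * Nb c + 1)).flatMap fun j =>
    (List.range (c.2 + 1)).map fun k => tr c i j k

/-- the enumeration -/
def en (c : (ℤ × ℤ) × ℕ) : List Tr := (box c).filterMap (out c)

theorem mem_en (c : (ℤ × ℤ) × ℕ) (p : Tr) : p ∈ en c ↔ p ∈ box c ∧ T c p := by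
  unfold en
  rw [List.mem_filterMap]
  constructor
  · rintro ⟨q, hq, h⟩
    unfold out at h
    by_cases hT : T c q
    · rw [if_pos hT] at h
      have : q = p := Option.some.inj h
      subst this
      exact ⟨hq, hT⟩
    · rw [if_neg hT] at h
      exact absurd h (by simp)
  · rintro ⟨h1, h2⟩
    exact ⟨p, h1, if_pos h2⟩

theorem mem_box (c : (ℤ × ℤ) × ℕ) (r n : ℤ) (s : ℕ) (hr : r.natAbs ≤ c.2) (hn : n.natAbs ≤ Nb c)
    (hs : s ≤ c.2) : ((r, n, (s : ℤ)) : Tr) ∈ box c := by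
  unfold box
  rw [List.mem_flatMap]
  refine ⟨(r + c.2).toNat, List.mem_range.2 (by omega), ?_⟩
  rw [List.mem_flatMap]
  refine ⟨(n + Nb c).toNat, List.mem_range.2 (by omega), ?_⟩
  rw [List.mem_map]
  refine ⟨s, List.mem_range.2 (by omega), ?_⟩
  unfold tr
  have e1 : (((r + c.2).toNat : ℕ) : ℤ) - (c.2 : ℤ) = r := by omega
  have e2 : (((n + Nb c).toNat : ℕ) : ℤ) - (Nb c : ℤ) = n := by omega
  rw [e1, e2]

/-! ### it is primitive recursive -/

section

variable {α : Type} [Primcodable α]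

theorem padd {f g : α → ℤ} (hf : Primrec f) (hg : Primrec g) : Primrec (fun a => f a + g a) :=
  prim_int_add.comp hf hg

theorem pmul {f g : α → ℤ} (hf : Primrec f) (hg : Primrec g) : Primrec (fun a => f a * g a) :=
  prim_int_mul.comp hf hg

theorem psub {f g : α → ℤ} (hf : Primrec f) (hg : Primrec g) : Primrec (fun a => f a - g a) :=
  prim_int_sub.comp hf hg

theorem ppow {f : α → ℤ} (hf : Primrec f) : ∀ n : ℕ, Primrec (fun a => f a ^ n)
  | 0 => (Primrec.const (1 : ℤ)).of_eq fun a => (pow_zero _).symm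
  | n + 1 => (pmul (ppow hf n) hf).of_eq fun a => (pow_succ _ _).symm

theorem pnatAbs {f : α → ℤ} (hf : Primrec f) : Primrec (fun a => (f a).natAbs) := by
  refine (Primrec.nat_add.comp (prim_toNat.comp hf) (prim_toNat_neg.comp hf)).of_eq fun a => ?_
  omega

theorem npow {f : α → ℕ} (hf : Primrec f) : ∀ n : ℕ, Primrec (fun a => f a ^ n)
  | 0 => (Primrec.const 1).of_eq fun a => (pow_zero _).symm
  | n + 1 => (Primrec.nat_mul.comp (npow hf n) hf).of_eq fun a => (pow_succ _ _).symm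

theorem pcast {f : α → ℕ} (hf : Primrec f) : Primrec (fun a => ((f a : ℕ) : ℤ)) :=
  prim_natCast.comp hf

theorem p_Nb {f : α → (ℤ × ℤ) × ℕ} (hf : Primrec f) : Primrec (fun a => Nb (f a)) := by
  have h1 : Primrec (fun a => (f a).1) := Primrec.fst.comp hf
  have ha : Primrec (fun a => (f a).1.1) := Primrec.fst.comp h1
  have hb : Primrec (fun a => (f a).1.2) := Primrec.snd.comp h1
  have hB : Primrec (fun a => (f a).2) := Primrec.snd.comp hf
  exact Primrec.nat_mul.comp (Primrec.succ.comp (Primrec.nat_add.comp (pnatAbs ha) (pnatAbs hb)))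
    (npow (Primrec.succ.comp hB) 6)

theorem p_tr {f : α → (ℤ × ℤ) × ℕ} {i j k : α → ℕ} (hf : Primrec f) (hi : Primrec i)
    (hj : Primrec j) (hk : Primrec k) : Primrec (fun a => tr (f a) (i a) (j a) (k a)) := by
  have hB : Primrec (fun a => (f a).2) := Primrec.snd.comp hf
  exact Primrec.pair (psub (pcast hi) (pcast hB))
    (Primrec.pair (psub (pcast hj) (pcast (p_Nb hf))) (pcast hk))

end

theorem p_box : Primrec box := by
  have hB : Primrec (fun c : (ℤ × ℤ) × ℕ => c.2) := Primrec.snd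
  have h1 : Primrec (fun c : (ℤ × ℤ) × ℕ => List.range (2 * c.2 + 1)) :=
    Primrec.list_range.comp (Primrec.succ.comp (Primrec.nat_mul.comp (Primrec.const 2) hB))
  have h2 : Primrec (fun c : (ℤ × ℤ) × ℕ => List.range (2 * Nb c + 1)) :=
    Primrec.list_range.comp (Primrec.succ.comp (Primrec.nat_mul.comp (Primrec.const 2)
      (p_Nb Primrec.id)))
  have h3 : Primrec (fun c : (ℤ × ℤ) × ℕ => List.range (c.2 + 1)) :=
    Primrec.list_range.comp (Primrec.succ.comp hB)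
  have h4 : Primrec (fun x : (((ℤ × ℤ) × ℕ) × ℕ) × ℕ =>
      (List.range (x.1.1.2 + 1)).map fun k => tr x.1.1 x.1.2 x.2 k) := by
    refine Primrec.list_map (h3.comp (Primrec.fst.comp Primrec.fst)) ?_
    exact p_tr (Primrec.fst.comp (Primrec.fst.comp Primrec.fst))
      (Primrec.snd.comp (Primrec.fst.comp Primrec.fst)) (Primrec.snd.comp Primrec.fst) Primrec.snd
  have h5 : Primrec (fun x : ((ℤ × ℤ) × ℕ) × ℕ =>
      (List.range (2 * Nb x.1 + 1)).flatMap fun j =>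
        (List.range (x.1.2 + 1)).map fun k => tr x.1 x.2 j k) :=
    Primrec.list_flatMap (h2.comp Primrec.fst) h4
  exact Primrec.list_flatMap h1 h5

theorem p_T : PrimrecPred (fun x : ((ℤ × ℤ) × ℕ) × Tr => T x.1 x.2) := by
  have hc : Primrec (fun x : ((ℤ × ℤ) × ℕ) × Tr => x.1.1) := Primrec.fst.comp Primrec.fst
  have ha : Primrec (fun x : ((ℤ × ℤ) × ℕ) × Tr => x.1.1.1) := Primrec.fst.comp hc
  have hb : Primrec (fun x : ((ℤ × ℤ) × ℕ) × Tr => x.1.1.2) := Primrec.snd.comp hc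
  have hp : Primrec (fun x : ((ℤ × ℤ) × ℕ) × Tr => x.2) := Primrec.snd
  have hr : Primrec (fun x : ((ℤ × ℤ) × ℕ) × Tr => x.2.1) := Primrec.fst.comp hp
  have h2 : Primrec (fun x : ((ℤ × ℤ) × ℕ) × Tr => x.2.2) := Primrec.snd.comp hp
  have hn : Primrec (fun x : ((ℤ × ℤ) × ℕ) × Tr => x.2.2.1) := Primrec.fst.comp h2
  have ht : Primrec (fun x : ((ℤ × ℤ) × ℕ) × Tr => x.2.2.2) := Primrec.snd.comp h2
  have h3 : PrimrecPred (fun x : ((ℤ × ℤ) × ℕ) × Tr => x.2.2.2 = 0) :=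
    Primrec.eq.comp ht (Primrec.const (0 : ℤ))
  have h4 : PrimrecPred (fun x : ((ℤ × ℤ) × ℕ) × Tr => x.2.2.1 ^ 2 =
      x.2.1 ^ 3 + x.1.1.1 * x.2.1 * x.2.2.2 ^ 4 + x.1.1.2 * x.2.2.2 ^ 6) :=
    Primrec.eq.comp (ppow hn 2)
      (padd (padd (ppow hr 3) (pmul (pmul ha hr) (ppow ht 4))) (pmul hb (ppow ht 6)))
  exact h3.not.and h4

theorem p_out : Primrec₂ out := by
  have h : Primrec (fun x : ((ℤ × ℤ) × ℕ) × Tr => if T x.1 x.2 then some x.2 else none) :=
    Primrec.ite p_T (Primrec.option_some.comp Primrec.snd) (Primrec.const none)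
  exact h

theorem p_en : Primrec en := Primrec.listFilterMap p_box p_out

/-! ### the points -/

theorem some_congr {a b : ℚ} {X Y X' Y' : ℚ} (h : (crv a b).toAffine.Nonsingular X Y)
    (h' : (crv a b).toAffine.Nonsingular X' Y') (hX : X = X') (hY : Y = Y') :
    (Affine.Point.some X Y h : Pt a b) = Affine.Point.some X' Y' h' := by
  subst hX
  subst hY
  rfl

theorem t_EN : S_EN := by
  refine ⟨en, p_en, ?_⟩
  intro a b _ B
  refine ⟨fun p hp => ((mem_en ((a, b), B) p).1 hp).2, ?_⟩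
  intro P hP hH
  cases P with
  | zero => exact absurd rfl hP
  | some X Y h =>
    have heq : Y ^ 2 = X ^ 3 + (a : ℚ) * X + b := by
      have h1 := h.1
      rw [Affine.equation_iff] at h1
      simp only at h1
      linear_combination h1
    obtain ⟨s, hs, hXd, hYd, hq⟩ := shape a b X Y heq
    have hH' : max X.num.natAbs X.den ≤ B := hH
    have hr : X.num.natAbs ≤ B := (le_max_left _ _).trans hH'
    have hd : X.den ≤ B := (le_max_right _ _).trans hH'
    have hsB : s ≤ B := by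
      rw [hXd] at hd
      exact (Nat.le_self_pow two_ne_zero s).trans hd
    have hn := nbd a b X.num Y.num s B hr hsB hq
    have hs0 : (s : ℤ) ≠ 0 := by exact_mod_cast hs.ne'
    have hsQ : (s : ℚ) ≠ 0 := by exact_mod_cast hs.ne'
    refine ⟨(X.num, Y.num, (s : ℤ)), (mem_en ((a, b), B) _).2
      ⟨mem_box ((a, b), B) X.num Y.num s hr hn hsB, hs0, hq⟩, ?_⟩
    have eX : X = ((X.num : ℤ) : ℚ) / (((s : ℕ) : ℤ) : ℚ) ^ 2 := by
      rw [Int.cast_natCast, eq_div_iff (pow_ne_zero 2 hsQ)]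
      have := Rat.mul_den_eq_num X
      rw [hXd] at this
      push_cast at this
      exact this
    have eY : Y = ((Y.num : ℤ) : ℚ) / (((s : ℕ) : ℤ) : ℚ) ^ 3 := by
      rw [Int.cast_natCast, eq_div_iff (pow_ne_zero 3 hsQ)]
      have := Rat.mul_den_eq_num Y
      rw [hYd] at this
      push_cast at this
      exact this
    have hns : (crv (a : ℚ) (b : ℚ)).toAffine.Nonsingular (((X.num : ℤ) : ℚ) / (((s : ℕ) : ℤ) : ℚ) ^ 2)
        (((Y.num : ℤ) : ℚ) / (((s : ℕ) : ℤ) : ℚ) ^ 3) := by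
      rw [← eX, ← eY]
      exact h
    have hpt : pt a b (X.num, Y.num, (s : ℤ)) =
        (Affine.Point.some _ _ hns : Pt (a : ℚ) (b : ℚ)) := by
      unfold pt
      rw [dif_pos (⟨hs0, hns⟩ : (X.num, Y.num, (s : ℤ)).2.2 ≠ 0 ∧
        (crv (a : ℚ) (b : ℚ)).toAffine.Nonsingular
          ((((X.num, Y.num, (s : ℤ)) : Tr).1 : ℚ) / ((((X.num, Y.num, (s : ℤ)) : Tr).2.2 : ℤ) : ℚ) ^ 2)
          ((((X.num, Y.num, (s : ℤ)) : Tr).2.1 : ℚ) / ((((X.num, Y.num, (s : ℤ)) : Tr).2.2 : ℤ) : ℚ) ^ 3))]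
    rw [hpt]
    exact some_congr h hns eX eY

end Pool.Agent.H725.QR.EN
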