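import Pool.Agent.H447.QR.Stm2

set_option autoImplicit false

/-!
# QR-GRP: the least number of generators of a finitely generated abelian group with cyclic torsion
-/

namespace Pool.Agent.H772.QR.GRP

open Pool.Agent.H447.QR

variable {G : Type} [AddCommGroup G]

theorem mem_tor (x : G) : x ∈ Submodule.torsion ℤ G ↔ x ∈ AddCommGroup.torsion G := by
  rw [← Submodule.torsion_int]
  rfl

/-- Generators modulo torsion. -/
theorem exists_gens [Module.Finite ℤ G] : ∃ g : Fin (Module.finrank ℤ G) → G,
    ∀ x : G, ∃ n : Fin (Module.finrank ℤ G) → ℤ,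
      x - ∑ i, n i • g i ∈ AddCommGroup.torsion G := by
  have hfin : Module.finrank ℤ (G ⧸ Submodule.torsion ℤ G) = Module.finrank ℤ G :=
    finrank_quotient_eq_of_le_torsion le_rfl
  let b := Module.finBasisOfFinrankEq ℤ (G ⧸ Submodule.torsion ℤ G) hfin
  have hex : ∀ i, ∃ g : G, (Submodule.torsion ℤ G).mkQ g = b i := fun i =>
    Submodule.mkQ_surjective (Submodule.torsion ℤ G) (b i)
  choose g hg using hex
  refine ⟨g, fun x => ⟨fun i => b.repr ((Submodule.torsion ℤ G).mkQ x) i, ?_⟩⟩
  rw [← mem_tor, ← Submodule.Quotient.mk_eq_zero, ← Submodule.mkQ_apply, map_sub, map_sum,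
    sub_eq_zero]
  conv_lhs => rw [← b.sum_repr ((Submodule.torsion ℤ G).mkQ x)]
  refine Finset.sum_congr rfl fun i _ => ?_
  rw [map_smul, hg]

/-- The lower bound. -/
theorem lower [Module.Finite ℤ G] (S : Finset G) (hS : AddSubgroup.closure (S : Set G) = ⊤) :
    Module.finrank ℤ G ≤ S.card ∧
      (S.card = Module.finrank ℤ G → AddCommGroup.torsion G = ⊥) := by
  let f : (S → ℤ) →ₗ[ℤ] G := Fintype.linearCombination ℤ (fun s : S => (s : G))
  have hr : LinearMap.range f = ⊤ := by
    rw [Fintype.range_linearCombination]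
    have h1 : Set.range (fun s : S => (s : G)) = (S : Set G) := Subtype.range_coe
    rw [h1, eq_top_iff]
    intro x _
    have h2 : x ∈ AddSubgroup.closure (S : Set G) := by
      rw [hS]
      exact AddSubgroup.mem_top x
    have h3 : AddSubgroup.closure (S : Set G) ≤
        (Submodule.span ℤ (S : Set G)).toAddSubgroup := by
      rw [AddSubgroup.closure_le]
      exact Submodule.subset_span
    exact h3 h2
  have hf : Function.Surjective f := LinearMap.range_eq_top.1 hr
  have h1 := Submodule.finrank_quotient_add_finrank (LinearMap.ker f)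
  have h2 : Module.finrank ℤ ((S → ℤ) ⧸ LinearMap.ker f) = Module.finrank ℤ G :=
    (f.quotKerEquivOfSurjective hf).finrank_eq
  have h3 : Module.finrank ℤ (S → ℤ) = S.card := by
    rw [Module.finrank_fintype_fun_eq_card, Fintype.card_coe]
  constructor
  · omega
  · intro h
    have h4 : Module.finrank ℤ (LinearMap.ker f) = 0 := by omega
    have h5 : LinearMap.ker f = ⊥ := Submodule.finrank_eq_zero.1 h4
    rw [eq_bot_iff]
    intro x hx
    rw [← mem_tor, Submodule.mem_torsion_iff] at hx
    obtain ⟨n, hn⟩ := hx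
    obtain ⟨v, rfl⟩ := hf x
    have h6 : ((n : ℤ) • v) ∈ LinearMap.ker f := by
      rw [LinearMap.mem_ker, map_smul]
      exact hn
    rw [h5, Submodule.mem_bot] at h6
    have h7 : v = 0 := (smul_eq_zero.1 h6).resolve_left (nonZeroDivisors.coe_ne_zero n)
    rw [h7, map_zero]
    exact AddSubgroup.zero_mem _

/-- The upper bound. -/
theorem upper (S : Finset G) (hS : AddSubgroup.closure (S : Set G) = ⊤) : gnum G ≤ S.card :=
  Nat.sInf_le ⟨S, rfl, hS⟩

theorem lower' {m : ℕ} (h0 : ∃ S : Finset G, AddSubgroup.closure (S : Set G) = ⊤)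
    (h : ∀ S : Finset G, AddSubgroup.closure (S : Set G) = ⊤ → m ≤ S.card) : m ≤ gnum G := by
  obtain ⟨S, hS⟩ := h0
  refine le_csInf ⟨S.card, S, rfl, hS⟩ ?_
  rintro n ⟨S', rfl, hS'⟩
  exact h S' hS'

theorem t_GRP : S_GRP := by
  classical
  intro G _ _ hcyc
  obtain ⟨g, hg⟩ := exists_gens (G := G)
  have hcard : (Finset.univ.image g).card ≤ Module.finrank ℤ G := by
    refine Finset.card_image_le.trans ?_
    rw [Finset.card_univ, Fintype.card_fin]
  constructor
  · intro hT
    have hcl : AddSubgroup.closure ((Finset.univ.image g : Finset G) : Set G) = ⊤ := by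
      rw [eq_top_iff]
      intro x _
      obtain ⟨n, hn⟩ := hg x
      rw [hT, AddSubgroup.mem_bot, sub_eq_zero] at hn
      rw [hn]
      refine AddSubgroup.sum_mem _ fun i _ => AddSubgroup.zsmul_mem _ (AddSubgroup.subset_closure ?_) _
      exact Finset.mem_coe.2 (Finset.mem_image_of_mem g (Finset.mem_univ i))
    refine le_antisymm ((upper _ hcl).trans hcard) (lower' ⟨_, hcl⟩ fun S hS => (lower S hS).1)
  · intro hT
    obtain ⟨t, ht⟩ := hcyc.exists_zsmul_surjective
    have hcl : AddSubgroup.closure ((insert (t : G) (Finset.univ.image g) : Finset G) : Set G) =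
        ⊤ := by
      rw [eq_top_iff]
      intro x _
      obtain ⟨n, hn⟩ := hg x
      obtain ⟨k, hk⟩ := ht ⟨_, hn⟩
      have hk' : k • (t : G) = x - ∑ i, n i • g i := congrArg Subtype.val hk
      have hx : x = k • (t : G) + ∑ i, n i • g i := by
        rw [hk', sub_add_cancel]
      rw [hx]
      refine AddSubgroup.add_mem _ (AddSubgroup.zsmul_mem _ (AddSubgroup.subset_closure ?_) _)
        (AddSubgroup.sum_mem _ fun i _ =>
          AddSubgroup.zsmul_mem _ (AddSubgroup.subset_closure ?_) _)
      · exact Finset.mem_coe.2 (Finset.mem_insert_self _ _)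
      · exact Finset.mem_coe.2 (Finset.mem_insert_of_mem
          (Finset.mem_image_of_mem g (Finset.mem_univ i)))
    refine le_antisymm ((upper _ hcl).trans ((Finset.card_insert_le _ _).trans
      (Nat.succ_le_succ hcard))) (lower' ⟨_, hcl⟩ fun S hS => ?_)
    obtain ⟨h1, h2⟩ := lower S hS
    rcases h1.lt_or_eq with h3 | h3
    · exact h3
    · exact absurd (h2 h3.symm) hT

end Pool.Agent.H772.QR.GRP
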