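import Pool.Agent.H447.QR.Stm

set_option autoImplicit false

open WeierstrassCurve

namespace Pool.Agent.H77.QR.CI

open Pool.Agent.H447.QR

theorem finite_poly (p : Polynomial ℚ) (hp : p ≠ 0) : {x : ℚ | p.eval x = 0}.Finite := by
  have := Polynomial.finite_setOfPred_isRoot hp
  exact this

/-- the form is not zero -/
theorem ex_ne (a b : ℚ) (g : Qf ℚ) (hab : 4 * a ^ 3 + 27 * b ^ 2 ≠ 0) (hI : Inv a b g) :
    ¬ ∀ x : ℚ, g.v x 1 = 0 := by
  intro h
  have h0 := h 0
  have h1 := h 1
  have h2 := h (-1)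
  have h3 := h 2
  have h4 := h (-2)
  unfold Qf.v at h0 h1 h2 h3 h4
  have eE : g.E = 0 := by linarith
  have eA : g.A = 0 := by linarith
  have eB : g.B = 0 := by linarith
  have eC : g.C = 0 := by linarith
  have eD : g.D = 0 := by linarith
  obtain ⟨i1, i2⟩ := hI
  unfold Qf.I at i1
  unfold Qf.J at i2
  rw [eA, eB, eC, eD, eE] at i1 i2
  have ea : a = 0 := by linarith
  have eb : b = 0 := by linarith
  apply hab
  rw [ea, eb]
  norm_num

/-- only finitely many zeros -/
theorem zeros_finite (a b : ℚ) (g : Qf ℚ) (hab : 4 * a ^ 3 + 27 * b ^ 2 ≠ 0) (hI : Inv a b g) :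
    {x : ℚ | g.v x 1 = 0}.Finite := by
  let p : Polynomial ℚ := Polynomial.C g.A * Polynomial.X ^ 4 + Polynomial.C g.B * Polynomial.X ^ 3 +
    Polynomial.C g.C * Polynomial.X ^ 2 + Polynomial.C g.D * Polynomial.X + Polynomial.C g.E
  have hev : ∀ x, p.eval x = g.v x 1 := by
    intro x
    simp only [p, Polynomial.eval_add, Polynomial.eval_mul, Polynomial.eval_C, Polynomial.eval_pow,
      Polynomial.eval_X, Qf.v]
    ring
  have hp : p ≠ 0 := by
    intro h
    apply ex_ne a b g hab hI
    intro x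
    rw [← hev, h, Polynomial.eval_zero]
  have := finite_poly p hp
  simpa only [hev] using this

theorem key (nf' : S_NF) (g1 : S_G1) (g2 : S_G2) (a b : ℚ) (g : Qf ℚ)
    (hab : 4 * a ^ 3 + 27 * b ^ 2 ≠ 0) (hI : Inv a b g) (X Y : ℚ)
    (h : (crv a b).toAffine.Nonsingular X Y) (hR : Rep a b g (Affine.Point.some X Y h)) :
    InfC g ↔ Infinite (Pt a b) := by
  obtain ⟨p, q, r, s, μ, h1, h2⟩ := nf' a b g X Y h hI hR
  rw [g2 g p q r s μ h1, h2]
  exact g1 a b X Y h hab

/-- the first coordinate -/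
noncomputable def xc (a b : ℚ) : Pt a b → ℚ
  | .zero => 0
  | .some X _ _ => X

theorem two_torsion (a b : ℚ) (X Y : ℚ) (h : (crv a b).toAffine.Nonsingular X Y)
    (h2 : Affine.Point.some X Y h + Affine.Point.some X Y h = 0) :
    Y = 0 ∧ X ^ 3 + a * X + b = 0 := by
  have h3 : Affine.Point.some X Y h = -Affine.Point.some X Y h := eq_neg_of_add_eq_zero_left h2
  rw [Affine.Point.neg_some] at h3
  rw [Affine.Point.some.injEq] at h3
  have hY : Y = 0 := by
    have := h3.2
    rw [Affine.negY] at this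
    simp only at this
    linarith
  refine ⟨hY, ?_⟩
  have he := h.1
  rw [Affine.equation_iff] at he
  simp only at he
  rw [hY] at he
  linarith

theorem exists_double_ne (a b : ℚ) (hinf : Infinite (Pt a b)) : ∃ Q : Pt a b, Q + Q ≠ 0 := by
  by_contra hcon
  push Not at hcon
  let p : Polynomial ℚ := Polynomial.X ^ 3 + Polynomial.C a * Polynomial.X + Polynomial.C b
  have hev : ∀ x, p.eval x = x ^ 3 + a * x + b := by
    intro x
    simp only [p, Polynomial.eval_add, Polynomial.eval_mul, Polynomial.eval_C, Polynomial.eval_pow,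
      Polynomial.eval_X]
  have hp : p ≠ 0 := by
    intro h
    have e0 := hev 0
    have e1 := hev 1
    have e2 := hev (-1)
    have e3 := hev 2
    rw [h, Polynomial.eval_zero] at e0 e1 e2 e3
    linarith
  have hfin := finite_poly p hp
  have hfin2 : (insert (0 : Pt a b) {Q : Pt a b | Q ≠ 0}).Finite := by
    apply Set.Finite.insert
    refine Set.Finite.of_finite_image (f := xc a b) (hfin.subset ?_) ?_
    · rintro x ⟨Q, hQ, rfl⟩
      cases Q with
      | zero => exact absurd rfl hQ
      | some X Y h =>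
        have := two_torsion a b X Y h (hcon _)
        show p.eval X = 0
        rw [hev]
        exact this.2
    · intro Q hQ Q' hQ' he
      cases Q with
      | zero => exact absurd rfl hQ
      | some X Y h =>
        cases Q' with
        | zero => exact absurd rfl hQ'
        | some X' Y' h' =>
          have t1 := two_torsion a b X Y h (hcon _)
          have t2 := two_torsion a b X' Y' h' (hcon _)
          have eX : X = X' := he
          obtain ⟨eY, -⟩ := t1
          obtain ⟨eY', -⟩ := t2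
          subst eX
          subst eY
          subst eY'
          rfl
  have huniv : (insert (0 : Pt a b) {Q : Pt a b | Q ≠ 0}) = Set.univ := by
    ext Q
    simp only [Set.mem_insert_iff, Set.mem_ofPred_eq, Set.mem_univ, iff_true]
    exact em _
  rw [huniv] at hfin2
  exact Set.infinite_univ hfin2

theorem t_CI (mk : S_MK) (nf' : S_NF) (g1 : S_G1) (g2 : S_G2) (sh : S_SH) (_c1 : S_COV1) :
    S_CI := by
  intro a b g hab hI
  constructor
  · intro hinf
    have hex : ∃ x y : ℚ, y ^ 2 = g.v x 1 ∧ y ≠ 0 := by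
      by_contra hcon
      push Not at hcon
      apply hinf
      refine ((zeros_finite a b g hab hI).image (fun x => (x, (0 : ℚ)))).subset ?_
      rintro ⟨x, y⟩ hxy
      have hxy' : y ^ 2 = g.v x 1 := hxy
      have hy := hcon x y hxy'
      refine ⟨x, ?_, by rw [hy]⟩
      show g.v x 1 = 0
      rw [← hxy', hy]
      norm_num
    obtain ⟨x, y, hxy, hy⟩ := hex
    obtain ⟨X, Y, h, e1, e2⟩ := mk a b g x 1 y hab hI hy hxy
    have hR : Rep a b g (Affine.Point.some X Y h) := ⟨x, 1, y, X, Y, h, hy, hxy, e1, e2, rfl⟩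
    exact ⟨(key nf' g1 g2 a b g hab hI X Y h hR).1 hinf, x, 1, y, Or.inr one_ne_zero, hxy⟩
  · rintro ⟨hinf, x, z, y, hxz, hxy⟩
    by_cases hy : y = 0
    · have hroot : Root g := ⟨x, z, hxz, by rw [← hxy, hy]; norm_num⟩
      obtain ⟨Q, hQ⟩ := exists_double_ne a b hinf
      have hR := sh a b g hab hI hroot Q hQ
      obtain ⟨x', z', y', X, Y, h, e0, e1, e2, e3, e4⟩ := hR
      have hR' : Rep a b g (Affine.Point.some X Y h) := ⟨x', z', y', X, Y, h, e0, e1, e2, e3, rfl⟩
      exact (key nf' g1 g2 a b g hab hI X Y h hR').2 hinf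
    · obtain ⟨X, Y, h, e1, e2⟩ := mk a b g x z y hab hI hy hxy
      have hR : Rep a b g (Affine.Point.some X Y h) := ⟨x, z, y, X, Y, h, hy, hxy, e1, e2, rfl⟩
      exact (key nf' g1 g2 a b g hab hI X Y h hR).2 hinf

end Pool.Agent.H77.QR.CI
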