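import Pool.Agent.H447.QR.Stm

/-!
# QR G1: `y² = nf (x, 1)` has infinitely many rational points iff the group is infinite
-/

set_option autoImplicit false

open WeierstrassCurve

namespace Pool.Agent.H828.QR.G1

open Pool.Agent.H447.QR

theorem disc_ne {a b : ℚ} (h : 4 * a ^ 3 + 27 * b ^ 2 ≠ 0) : (crv a b).toAffine.Δ ≠ 0 := by
  have e : (crv a b).toAffine.Δ = -16 * (4 * a ^ 3 + 27 * b ^ 2) := by
    simp only [WeierstrassCurve.Δ, WeierstrassCurve.b₂, WeierstrassCurve.b₄, WeierstrassCurve.b₆,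
      WeierstrassCurve.b₈]
    ring
  rw [e]
  exact mul_ne_zero (by norm_num) h

theorem eqn_iff (a b x y : ℚ) : (crv a b).toAffine.Equation x y ↔ y ^ 2 = x ^ 3 + a * x + b := by
  rw [Affine.equation_iff]
  constructor
  · intro h
    linear_combination h
  · intro h
    linear_combination h

/-- the affine points -/
def SS (a b : ℚ) : Set (ℚ × ℚ) := {p | p.2 ^ 2 = p.1 ^ 3 + a * p.1 + b}

theorem inf_pt {a b : ℚ} (h : 4 * a ^ 3 + 27 * b ^ 2 ≠ 0) : Infinite (Pt a b) ↔ (SS a b).Infinite := by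
  have hns : ∀ p : SS a b, (crv a b).toAffine.Nonsingular p.1.1 p.1.2 := fun p =>
    (Affine.equation_iff_nonsingular_of_Δ_ne_zero (disc_ne h)).1 ((eqn_iff a b _ _).2 p.2)
  let f : SS a b → Pt a b := fun p => Affine.Point.some p.1.1 p.1.2 (hns p)
  have hf : Function.Injective f := by
    intro p q hpq
    have h1 : p.1.1 = q.1.1 ∧ p.1.2 = q.1.2 := by
      injection hpq with h1a h1b
      exact ⟨h1a, h1b⟩
    exact Subtype.ext (Prod.ext h1.1 h1.2)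
  rw [← Set.infinite_coe_iff]
  constructor
  · intro hinf
    by_contra hcon
    have hfin : Finite (SS a b) := not_infinite_iff_finite.1 hcon
    have h2 : (Set.univ : Set (Pt a b)) ⊆ insert 0 (Set.range f) := by
      rintro P -
      rcases P with _ | ⟨x, y, hP⟩
      · exact Set.mem_insert _ _
      · refine Set.mem_insert_of_mem _ ⟨⟨(x, y), (eqn_iff a b x y).1 hP.1⟩, rfl⟩
    have h3 : (insert 0 (Set.range f)).Finite := (Set.finite_range f).insert 0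
    exact Set.infinite_univ (h3.subset h2)
  · intro hinf
    exact Infinite.of_injective f hf

theorem nf_v (a X₀ Y₀ t : ℚ) : (nf a X₀ Y₀).v t 1 =
    t ^ 4 - 6 * X₀ * t ^ 2 + 8 * Y₀ * t - 3 * X₀ ^ 2 - 4 * a := by
  simp only [nf, Qf.v]
  ring

/-- the points of the quartic -/
def TT (a X₀ Y₀ : ℚ) : Set (ℚ × ℚ) :=
  {p | p.2 ^ 2 = p.1 ^ 4 - 6 * X₀ * p.1 ^ 2 + 8 * Y₀ * p.1 - 3 * X₀ ^ 2 - 4 * a}

theorem infC_iff (a X₀ Y₀ : ℚ) : InfC (nf a X₀ Y₀) ↔ (TT a X₀ Y₀).Infinite := by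
  have h : {p : ℚ × ℚ | p.2 ^ 2 = (nf a X₀ Y₀).v p.1 1} = TT a X₀ Y₀ := by
    ext p
    change p.2 ^ 2 = (nf a X₀ Y₀).v p.1 1 ↔ _
    rw [nf_v]
    exact Iff.rfl
  unfold InfC
  rw [h]

theorem forth {a b X₀ Y₀ : ℚ} (h : 4 * a ^ 3 + 27 * b ^ 2 ≠ 0)
    (h0 : Y₀ ^ 2 = X₀ ^ 3 + a * X₀ + b) (hT : (TT a X₀ Y₀).Infinite) : (SS a b).Infinite := by
  let u : ℚ × ℚ → ℚ := fun p => (p.1 ^ 2 - X₀ + p.2) / 2
  let f : ℚ × ℚ → ℚ × ℚ := fun p => (u p, Y₀ + p.1 * (u p - X₀))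
  -- the exceptional points
  have hex : (TT a X₀ Y₀ ∩ {p | u p = X₀}).Finite := by
    refine (Set.finite_singleton (((12 * X₀ ^ 2 + 4 * a) / (8 * Y₀),
      3 * X₀ - ((12 * X₀ ^ 2 + 4 * a) / (8 * Y₀)) ^ 2) : ℚ × ℚ)).subset ?_
    rintro ⟨t, w⟩ ⟨hp, hu⟩
    have hu' : (t ^ 2 - X₀ + w) / 2 = X₀ := hu
    have hp' : w ^ 2 = t ^ 4 - 6 * X₀ * t ^ 2 + 8 * Y₀ * t - 3 * X₀ ^ 2 - 4 * a := hp
    have hw : w = 3 * X₀ - t ^ 2 := by linear_combination 2 * hu'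
    have h8 : 8 * Y₀ * t = 12 * X₀ ^ 2 + 4 * a := by
      rw [hw] at hp'
      linear_combination -hp'
    have hY : Y₀ ≠ 0 := by
      rintro rfl
      apply h
      have ha : a = -3 * X₀ ^ 2 := by linear_combination (-1 / 4) * h8
      have hb : b = 2 * X₀ ^ 3 := by
        rw [ha] at h0
        linear_combination -h0
      rw [ha, hb]
      ring
    have ht : t = (12 * X₀ ^ 2 + 4 * a) / (8 * Y₀) := by
      rw [eq_div_iff (mul_ne_zero (by norm_num) hY)]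
      linear_combination h8
    rw [Set.mem_singleton_iff, Prod.mk.injEq]
    refine ⟨ht, ?_⟩
    rw [← ht, hw]
  have hT' : (TT a X₀ Y₀ \ (TT a X₀ Y₀ ∩ {p | u p = X₀})).Infinite := hT.sdiff hex
  have hinj : Set.InjOn f (TT a X₀ Y₀ \ (TT a X₀ Y₀ ∩ {p | u p = X₀})) := by
    rintro ⟨t, w⟩ hp ⟨t', w'⟩ hp' hff
    have e1 : u (t, w) = u (t', w') := congrArg Prod.fst hff
    have e2 : Y₀ + t * (u (t, w) - X₀) = Y₀ + t' * (u (t', w') - X₀) := congrArg Prod.snd hff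
    have hne : u (t, w) - X₀ ≠ 0 := by
      intro h1
      exact hp.2 ⟨hp.1, sub_eq_zero.1 h1⟩
    rw [← e1] at e2
    have ht : t = t' := mul_right_cancel₀ hne (add_left_cancel e2)
    have e3 : (t ^ 2 - X₀ + w) / 2 = (t' ^ 2 - X₀ + w') / 2 := e1
    rw [← ht] at e3
    have hw : w = w' := by linear_combination 2 * e3
    rw [ht, hw]
  refine (hT'.image hinj).mono ?_
  rintro _ ⟨⟨t, w⟩, hp, rfl⟩
  have hp' : w ^ 2 = t ^ 4 - 6 * X₀ * t ^ 2 + 8 * Y₀ * t - 3 * X₀ ^ 2 - 4 * a := hp.1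
  change (Y₀ + t * ((t ^ 2 - X₀ + w) / 2 - X₀)) ^ 2 =
    ((t ^ 2 - X₀ + w) / 2) ^ 3 + a * ((t ^ 2 - X₀ + w) / 2) + b
  linear_combination h0 - (1 / 4) * ((t ^ 2 - X₀ + w) / 2 - X₀) * hp'

theorem back {a b X₀ Y₀ : ℚ}
    (h0 : Y₀ ^ 2 = X₀ ^ 3 + a * X₀ + b) (hS : (SS a b).Infinite) : (TT a X₀ Y₀).Infinite := by
  let τ : ℚ × ℚ → ℚ := fun p => (p.2 - Y₀) / (p.1 - X₀)
  let f : ℚ × ℚ → ℚ × ℚ := fun p => (τ p, 2 * p.1 + X₀ - τ p ^ 2)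
  have hex : (SS a b ∩ {p | p.1 = X₀}).Finite := by
    refine (Set.toFinite ({(X₀, Y₀), (X₀, -Y₀)} : Set (ℚ × ℚ))).subset ?_
    rintro ⟨x, y⟩ ⟨hp, hx⟩
    have hx' : x = X₀ := hx
    have hp' : y ^ 2 = x ^ 3 + a * x + b := hp
    rw [hx', ← h0] at hp'
    rcases sq_eq_sq_iff_eq_or_eq_neg.1 hp' with h1 | h1
    · left; rw [hx', h1]
    · right; rw [Set.mem_singleton_iff, hx', h1]
  have hS' : (SS a b \ (SS a b ∩ {p | p.1 = X₀})).Infinite := hS.sdiff hex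
  have hne : ∀ p ∈ SS a b \ (SS a b ∩ {p | p.1 = X₀}), p.1 - X₀ ≠ 0 := by
    intro p hp h1
    exact hp.2 ⟨hp.1, sub_eq_zero.1 h1⟩
  have hτ : ∀ p ∈ SS a b \ (SS a b ∩ {p | p.1 = X₀}), p.2 = Y₀ + τ p * (p.1 - X₀) := by
    intro p hp
    have h1 : τ p * (p.1 - X₀) = p.2 - Y₀ := div_mul_cancel₀ _ (hne p hp)
    rw [h1]; ring
  have hinj : Set.InjOn f (SS a b \ (SS a b ∩ {p | p.1 = X₀})) := by
    intro p hp p' hp' hff
    have e1 : τ p = τ p' := congrArg Prod.fst hff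
    have e2 : 2 * p.1 + X₀ - τ p ^ 2 = 2 * p'.1 + X₀ - τ p' ^ 2 := congrArg Prod.snd hff
    have e3 : p.1 = p'.1 := by
      rw [e1] at e2
      linear_combination (1 / 2) * e2
    refine Prod.ext e3 ?_
    rw [hτ p hp, hτ p' hp', e1, e3]
  refine (hS'.image hinj).mono ?_
  rintro _ ⟨p, hp, rfl⟩
  change (2 * p.1 + X₀ - τ p ^ 2) ^ 2 =
    τ p ^ 4 - 6 * X₀ * τ p ^ 2 + 8 * Y₀ * τ p - 3 * X₀ ^ 2 - 4 * a
  have h1 : p.2 ^ 2 = p.1 ^ 3 + a * p.1 + b := hp.1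
  have h2 := hτ p hp
  rw [h2] at h1
  have h3 : (p.1 - X₀) * (p.1 ^ 2 - (τ p ^ 2 - X₀) * p.1 +
      (X₀ ^ 2 + a - 2 * Y₀ * τ p + τ p ^ 2 * X₀)) = 0 := by
    linear_combination h0 - h1
  have h4 := (mul_eq_zero.1 h3).resolve_left (hne p hp)
  linear_combination 4 * h4

theorem t_G1 : S_G1 := by
  intro a b X₀ Y₀ hns h
  have h0 : Y₀ ^ 2 = X₀ ^ 3 + a * X₀ + b := (eqn_iff a b X₀ Y₀).1 hns.1
  rw [infC_iff, inf_pt h]
  exact ⟨forth h h0, back h0⟩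

end Pool.Agent.H828.QR.G1
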