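import Pool.Agent.H447.QR.Stm

set_option autoImplicit false

/-! # Task SE of project QR (MP_d6ddbd_nt) -/

open WeierstrassCurve Pool.Agent.H447.QR

namespace Pool.Agent.H860.QR.SE

theorem eqn_iff {a b x y : ℚ} : (crv a b).toAffine.Equation x y ↔ y ^ 2 = x ^ 3 + a * x + b := by
  rw [Affine.equation_iff]
  simp

theorem nons_iff {a b x y : ℚ} (hd : 4 * a ^ 3 + 27 * b ^ 2 ≠ 0) :
    (crv a b).toAffine.Nonsingular x y ↔ y ^ 2 = x ^ 3 + a * x + b := by
  rw [Affine.nonsingular_iff, eqn_iff]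
  refine ⟨fun h => h.1, fun h => ⟨h, ?_⟩⟩
  by_contra hcon
  push Not at hcon
  obtain ⟨h1, h2⟩ := hcon
  simp only [zero_mul, mul_zero, add_zero, sub_zero, zero_add] at h1 h2
  have hy : y = 0 := by linarith
  subst hy
  apply hd
  have h3 : b = 2 * x ^ 3 := by linear_combination -h + x * h1
  have h4 : a = -3 * x ^ 2 := by linear_combination -h1
  rw [h3, h4]
  ring

theorem negY_eq (a b x y : ℚ) : (crv a b).toAffine.negY x y = -y := by
  simp [Affine.negY]

/-- The duplication formula. -/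
theorem dbl {a b u w X Y : ℚ} (hQ : (crv a b).toAffine.Nonsingular u w)
    (h : (crv a b).toAffine.Nonsingular X Y) (hw : w ≠ 0) :
    Affine.Point.some X Y h = Affine.Point.some u w hQ + Affine.Point.some u w hQ ↔
      X = ((3 * u ^ 2 + a) / (2 * w)) ^ 2 - 2 * u ∧
      Y = -((3 * u ^ 2 + a) / (2 * w) * (X - u) + w) := by
  have hy : w ≠ (crv a b).toAffine.negY u w := by
    rw [negY_eq]
    intro h1
    apply hw
    linarith
  have hs : (crv a b).toAffine.slope u u w w = (3 * u ^ 2 + a) / (2 * w) := by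
    rw [Affine.slope_of_Y_ne rfl hy, negY_eq]
    simp only [zero_mul, mul_zero, add_zero, sub_zero]
    congr 1
    ring
  rw [Affine.Point.add_self_of_Y_ne hy, Affine.Point.some.injEq]
  simp only [Affine.addX, Affine.addY, Affine.negAddY, Affine.negY, hs, zero_mul, mul_zero,
    add_zero, sub_zero]
  constructor
  · rintro ⟨h1, h2⟩
    refine ⟨by rw [h1]; ring, ?_⟩
    rw [h2, h1]
  · rintro ⟨h1, h2⟩
    have h3 : X = ((3 * u ^ 2 + a) / (2 * w)) ^ 2 - u - u := by rw [h1]; ring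
    refine ⟨h3, ?_⟩
    rw [h2, ← h3]

theorem dbl_zero {a b u : ℚ} (hQ : (crv a b).toAffine.Nonsingular u 0) :
    Affine.Point.some u 0 hQ + Affine.Point.some u 0 hQ = 0 :=
  Affine.Point.add_self_of_Y_eq (by rw [negY_eq, neg_zero])

theorem t_SE : S_SE := by
  intro a b X₀ Y₀ h hd
  have hE := (nons_iff hd).1 h
  constructor
  · rintro ⟨x, z, hxz, hv⟩
    have hz : z ≠ 0 := by
      rintro rfl
      have h1 : x = 0 := by
        have : x ^ 4 = 0 := by
          have e : (nf a X₀ Y₀).v x 0 = x ^ 4 := by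
            simp only [nf, Qf.v]
            ring
          rw [← e, hv]
        exact pow_eq_zero_iff (by norm_num) |>.1 this
      rcases hxz with h2 | h2
      · exact h2 h1
      · exact h2 rfl
    obtain ⟨t, ht⟩ : ∃ t, t = x / z := ⟨_, rfl⟩
    have hx : x = t * z := by rw [ht, div_mul_cancel₀ _ hz]
    have hroot : t ^ 4 - 6 * X₀ * t ^ 2 + 8 * Y₀ * t - 3 * X₀ ^ 2 - 4 * a = 0 := by
      have h1 : z ^ 4 * (t ^ 4 - 6 * X₀ * t ^ 2 + 8 * Y₀ * t - 3 * X₀ ^ 2 - 4 * a) = 0 := by
        rw [← hv, hx]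
        simp only [nf, Qf.v]
        ring
      exact (mul_eq_zero.1 h1).resolve_left (pow_ne_zero _ hz)
    obtain ⟨u, hu⟩ : ∃ u, u = (t ^ 2 - X₀) / 2 := ⟨_, rfl⟩
    obtain ⟨v, hv'⟩ : ∃ v, v = Y₀ + t * (u - X₀) := ⟨_, rfl⟩
    have hX : X₀ = t ^ 2 - 2 * u := by rw [hu]; ring
    have hY : Y₀ = v - t * (u - X₀) := by rw [hv']; ring
    have htan : 3 * u ^ 2 + a = 2 * t * v := by
      rw [hY, hX] at hroot
      linear_combination -hroot / 4
    have hcur : v ^ 2 = u ^ 3 + a * u + b := by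
      have h1 : a = 2 * t * v - 3 * u ^ 2 := by linarith
      rw [hY, hX, h1] at hE
      rw [h1]
      linear_combination hE
    have hv0 : v ≠ 0 := by
      intro h0
      rw [h0] at htan hcur
      apply hd
      have h1 : a = -3 * u ^ 2 := by linarith
      have h2 : b = 2 * u ^ 3 := by
        rw [h1] at hcur
        linarith
      rw [h1, h2]
      ring
    have hQ : (crv a b).toAffine.Nonsingular u (-v) := (nons_iff hd).2 (by rw [neg_sq]; exact hcur)
    refine ⟨Affine.Point.some u (-v) hQ, (dbl hQ h (neg_ne_zero.2 hv0)).2 ?_⟩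
    have hsl : (3 * u ^ 2 + a) / (2 * -v) = -t := by
      rw [htan, div_eq_iff (mul_ne_zero two_ne_zero (neg_ne_zero.2 hv0))]
      ring
    rw [hsl]
    refine ⟨by rw [hX]; ring, by rw [hY]; ring⟩
  · rintro ⟨Q, hQ⟩
    match Q, hQ with
    | 0, hQ =>
      rw [add_zero] at hQ
      exact absurd hQ (Affine.Point.some_ne_zero h)
    | Affine.Point.some u w hn, hQ =>
      rcases eq_or_ne w 0 with rfl | hw
      · rw [dbl_zero] at hQ
        exact absurd hQ (Affine.Point.some_ne_zero h)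
      · obtain ⟨h1, h2⟩ := (dbl hn h hw).1 hQ
        obtain ⟨l, hl⟩ : ∃ l, l = (3 * u ^ 2 + a) / (2 * w) := ⟨_, rfl⟩
        rw [← hl] at h1 h2
        have hl' : 3 * u ^ 2 + a = l * (2 * w) := by
          rw [hl, div_mul_cancel₀ _ (mul_ne_zero two_ne_zero hw)]
        refine ⟨-l, 1, Or.inr one_ne_zero, ?_⟩
        simp only [nf, Qf.v]
        rw [h2, h1]
        linear_combination (-4) * hl'

end Pool.Agent.H860.QR.SE
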