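import Pool.Agent.H447.QR.Stm

set_option autoImplicit false

namespace Pool.Agent.H874.QR.LR

open Pool.Agent.H447.QR

theorem v_scale (g : Qf ℤ) (d x z : ℤ) : g.v (x * d) (z * d) = d ^ 4 * g.v x z := by
  unfold Qf.v
  ring

theorem v_cast (g : Qf ℤ) (x z : ℤ) : g.q.v (x : ℚ) (z : ℚ) = ((g.v x z : ℤ) : ℚ) := by
  unfold Qf.v Qf.q
  push_cast
  ring

theorem v_scaleQ (g : Qf ℚ) (d x z : ℚ) : g.v (x * d) (z * d) = d ^ 4 * g.v x z := by
  unfold Qf.v
  ring

/-- integral root -/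
theorem int_root (g : Qf ℤ) (h : Root g.q) :
    ∃ x z : ℤ, (x ≠ 0 ∨ z ≠ 0) ∧ g.v x z = 0 := by
  obtain ⟨x, z, hxz, hv⟩ := h
  have hx : x * ((x.den * z.den : ℕ) : ℚ) = ((x.num * z.den : ℤ) : ℚ) := by
    push_cast
    rw [← mul_assoc, Rat.mul_den_eq_num]
  have hz : z * ((x.den * z.den : ℕ) : ℚ) = ((z.num * x.den : ℤ) : ℚ) := by
    push_cast
    rw [mul_comm (x.den : ℚ), ← mul_assoc, Rat.mul_den_eq_num]
  refine ⟨x.num * z.den, z.num * x.den, ?_, ?_⟩
  · rcases hxz with h | h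
    · left
      exact mul_ne_zero (Rat.num_ne_zero.mpr h) (by exact_mod_cast z.den_nz)
    · right
      exact mul_ne_zero (Rat.num_ne_zero.mpr h) (by exact_mod_cast x.den_nz)
  · have h1 := v_scaleQ g.q ((x.den * z.den : ℕ) : ℚ) x z
    rw [hv, mul_zero, hx, hz, v_cast] at h1
    exact_mod_cast h1

/-- coprime integral root -/
theorem cop_root (g : Qf ℤ) (h : Root g.q) :
    ∃ x z : ℤ, Int.gcd x z = 1 ∧ g.v x z = 0 := by
  obtain ⟨x, z, hxz, hv⟩ := int_root g h
  have hpos : 0 < Int.gcd x z := by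
    rcases hxz with h | h
    · exact Int.gcd_pos_of_ne_zero_left z h
    · exact Int.gcd_pos_of_ne_zero_right x h
  obtain ⟨x', z', hg, hx, hz⟩ := Int.exists_gcd_one hpos
  refine ⟨x', z', hg, ?_⟩
  have h1 := v_scale g (Int.gcd x z : ℤ) x' z'
  rw [← hx, ← hz, hv] at h1
  have h2 : ((Int.gcd x z : ℤ)) ^ 4 ≠ 0 := by
    have : (Int.gcd x z : ℤ) ≠ 0 := by exact_mod_cast hpos.ne'
    exact pow_ne_zero 4 this
  rcases mul_eq_zero.mp h1.symm with h | h
  · exact absurd h h2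
  · exact h

theorem t_LR : S_LR := by
  intro g hn
  constructor
  · intro h
    by_cases hA : g.A = 0
    · refine ⟨1, 0, ?_, ?_, Or.inl one_ne_zero, ?_⟩
      · simpa using Nat.one_le_iff_ne_zero.mpr hn
      · simp
      · unfold Qf.v
        rw [hA]
        ring
    by_cases hE : g.E = 0
    · refine ⟨0, 1, ?_, ?_, Or.inr one_ne_zero, ?_⟩
      · simp
      · simpa using Nat.one_le_iff_ne_zero.mpr hn
      · unfold Qf.v
        rw [hE]
        ring
    obtain ⟨x, z, hg, hv⟩ := cop_root g h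
    have hcop : IsCoprime x z := Int.isCoprime_iff_gcd_eq_one.mpr hg
    have hzA : z ∣ g.A := by
      have h1 : z ∣ g.A * x ^ 4 := by
        refine ⟨-(g.B * x ^ 3 + g.C * x ^ 2 * z + g.D * x * z ^ 2 + g.E * z ^ 3), ?_⟩
        unfold Qf.v at hv
        linear_combination hv
      exact (hcop.symm.pow_right (n := 4)).dvd_of_dvd_mul_right h1
    have hxE : x ∣ g.E := by
      have h1 : x ∣ g.E * z ^ 4 := by
        refine ⟨-(g.A * x ^ 3 + g.B * x ^ 2 * z + g.C * x * z ^ 2 + g.D * z ^ 3), ?_⟩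
        unfold Qf.v at hv
        linear_combination hv
      exact (hcop.pow_right (n := 4)).dvd_of_dvd_mul_right h1
    have h1 : z.natAbs ≤ g.A.natAbs :=
      Nat.le_of_dvd (Int.natAbs_pos.mpr hA) (Int.natAbs_dvd_natAbs.mpr hzA)
    have h2 : x.natAbs ≤ g.E.natAbs :=
      Nat.le_of_dvd (Int.natAbs_pos.mpr hE) (Int.natAbs_dvd_natAbs.mpr hxE)
    refine ⟨x, z, ?_, ?_, ?_, hv⟩
    · unfold Qf.n
      omega
    · unfold Qf.n
      omega
    · by_contra hcon
      push Not at hcon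
      obtain ⟨h3, h4⟩ := hcon
      rw [h3, h4] at hg
      simp at hg
  · rintro ⟨x, z, -, -, hxz, hv⟩
    refine ⟨x, z, ?_, ?_⟩
    · rcases hxz with h | h
      · exact Or.inl (by exact_mod_cast h)
      · exact Or.inr (by exact_mod_cast h)
    · rw [v_cast, hv]
      simp

end Pool.Agent.H874.QR.LR
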