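import Pool.Agent.H447.QR.Stm2
import Pool.Graph.R_seed8.Helper566.FD.J7

/-!
# Project QR, part 2 (helper447): the statement `S_PA`

The condition `Cov` is primitive recursive.
-/

set_option autoImplicit false

namespace Pool.Agent.H909.QR.PA

open Pool.Agent.H447.QR
open Pool.Agent.Helper566.FD.J7

variable {α : Type} [Primcodable α]

/-! ### Closure properties (as in the file `PG` of helper388) -/

theorem zadd {f g : α → ℤ} (hf : Primrec f) (hg : Primrec g) : Primrec fun a => f a + g a :=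
  prim_int_add.comp hf hg

theorem zsub {f g : α → ℤ} (hf : Primrec f) (hg : Primrec g) : Primrec fun a => f a - g a :=
  prim_int_sub.comp hf hg

theorem zmul {f g : α → ℤ} (hf : Primrec f) (hg : Primrec g) : Primrec fun a => f a * g a :=
  prim_int_mul.comp hf hg

theorem zmulc (k : ℤ) {f : α → ℤ} (hf : Primrec f) : Primrec fun a => k * f a :=
  prim_int_mul.comp (Primrec.const k) hf

theorem zpow {f : α → ℤ} (hf : Primrec f) (n : ℕ) : Primrec fun a => f a ^ n := by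
  induction n with
  | zero => exact (Primrec.const (1 : ℤ)).of_eq fun a => by simp
  | succ n ih => exact (zmul ih hf).of_eq fun a => by rw [pow_succ]

theorem zeq {f g : α → ℤ} (hf : Primrec f) (hg : Primrec g) : PrimrecPred fun a => f a = g a :=
  Primrec.eq.comp hf hg

theorem zeq0 {f : α → ℤ} (hf : Primrec f) : PrimrecPred fun a => f a = 0 :=
  Primrec.eq.comp hf (Primrec.const 0)

theorem mk3 {f g h : α → ℤ} (hf : Primrec f) (hg : Primrec g) (hh : Primrec h) :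
    Primrec fun a => ((f a, g a, h a) : Tr) :=
  Primrec.pair hf (Primrec.pair hg hh)

/-! ### The addition -/

/-- the duplication part of `addT` -/
def dbl (a : ℤ) (p : Tr) : Tr :=
  ((3 * p.1 ^ 2 + a * p.2.2 ^ 4) ^ 2 - 2 * (4 * p.1 * p.2.1 ^ 2),
    (3 * p.1 ^ 2 + a * p.2.2 ^ 4) * (4 * p.1 * p.2.1 ^ 2 -
      ((3 * p.1 ^ 2 + a * p.2.2 ^ 4) ^ 2 - 2 * (4 * p.1 * p.2.1 ^ 2))) - 8 * p.2.1 ^ 4,
    2 * p.2.1 * p.2.2)

/-- the generic part of `addT`, as a function of `U1`, `U2`, `S1`, `S2` -/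
def gen (p q : Tr) (U1 U2 S1 S2 : ℤ) : Tr :=
  ((S2 - S1) ^ 2 - (U2 - U1) ^ 3 - 2 * U1 * (U2 - U1) ^ 2,
    (S2 - S1) * (U1 * (U2 - U1) ^ 2 - ((S2 - S1) ^ 2 - (U2 - U1) ^ 3 - 2 * U1 * (U2 - U1) ^ 2)) -
      S1 * (U2 - U1) ^ 3, (U2 - U1) * p.2.2 * q.2.2)

theorem addT_eq (a : ℤ) (p q : Tr) : addT a p q =
    if p.2.2 = 0 then q else if q.2.2 = 0 then p else
      if p.1 * q.2.2 ^ 2 = q.1 * p.2.2 ^ 2 then
        (if p.2.1 * q.2.2 ^ 3 = q.2.1 * p.2.2 ^ 3 ∧ p.2.1 ≠ 0 then dbl a p else (1, 1, 0))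
      else gen p q (p.1 * q.2.2 ^ 2) (q.1 * p.2.2 ^ 2) (p.2.1 * q.2.2 ^ 3) (q.2.1 * p.2.2 ^ 3) :=
  rfl

section

variable {a : α → ℤ} {p q : α → Tr}

theorem p1 (hp : Primrec p) : Primrec fun x => (p x).1 := Primrec.fst.comp hp

theorem p2 (hp : Primrec p) : Primrec fun x => (p x).2.1 := Primrec.fst.comp (Primrec.snd.comp hp)

theorem p3 (hp : Primrec p) : Primrec fun x => (p x).2.2 := Primrec.snd.comp (Primrec.snd.comp hp)

theorem dbl_prim (ha : Primrec a) (hp : Primrec p) : Primrec fun x => dbl (a x) (p x) := by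
  have hM : Primrec fun x => 3 * (p x).1 ^ 2 + a x * (p x).2.2 ^ 4 :=
    zadd (zmulc 3 (zpow (p1 hp) 2)) (zmul ha (zpow (p3 hp) 4))
  have hS : Primrec fun x => 4 * (p x).1 * (p x).2.1 ^ 2 :=
    zmul (zmulc 4 (p1 hp)) (zpow (p2 hp) 2)
  have hX : Primrec fun x => (3 * (p x).1 ^ 2 + a x * (p x).2.2 ^ 4) ^ 2 -
      2 * (4 * (p x).1 * (p x).2.1 ^ 2) := zsub (zpow hM 2) (zmulc 2 hS)
  exact mk3 hX (zsub (zmul hM (zsub hS hX)) (zmulc 8 (zpow (p2 hp) 4)))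
    (zmul (zmulc 2 (p2 hp)) (p3 hp))

theorem gen_prim {U1 U2 S1 S2 : α → ℤ} (hp : Primrec p) (hq : Primrec q) (h1 : Primrec U1)
    (h2 : Primrec U2) (h3 : Primrec S1) (h4 : Primrec S2) :
    Primrec fun x => gen (p x) (q x) (U1 x) (U2 x) (S1 x) (S2 x) := by
  have hH : Primrec fun x => U2 x - U1 x := zsub h2 h1
  have hR : Primrec fun x => S2 x - S1 x := zsub h4 h3
  have hX : Primrec fun x => (S2 x - S1 x) ^ 2 - (U2 x - U1 x) ^ 3 -
      2 * U1 x * (U2 x - U1 x) ^ 2 :=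
    zsub (zsub (zpow hR 2) (zpow hH 3)) (zmul (zmulc 2 h1) (zpow hH 2))
  exact mk3 hX (zsub (zmul hR (zsub (zmul h1 (zpow hH 2)) hX)) (zmul h3 (zpow hH 3)))
    (zmul (zmul hH (p3 hp)) (p3 hq))

theorem addT_prim (ha : Primrec a) (hp : Primrec p) (hq : Primrec q) :
    Primrec fun x => addT (a x) (p x) (q x) := by
  have hU1 : Primrec fun x => (p x).1 * (q x).2.2 ^ 2 := zmul (p1 hp) (zpow (p3 hq) 2)
  have hU2 : Primrec fun x => (q x).1 * (p x).2.2 ^ 2 := zmul (p1 hq) (zpow (p3 hp) 2)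
  have hS1 : Primrec fun x => (p x).2.1 * (q x).2.2 ^ 3 := zmul (p2 hp) (zpow (p3 hq) 3)
  have hS2 : Primrec fun x => (q x).2.1 * (p x).2.2 ^ 3 := zmul (p2 hq) (zpow (p3 hp) 3)
  have h := Primrec.ite (zeq0 (p3 hp)) hq (Primrec.ite (zeq0 (p3 hq)) hp
    (Primrec.ite (zeq hU1 hU2)
      (Primrec.ite ((zeq hS1 hS2).and (zeq0 (p2 hp)).not) (dbl_prim ha hp)
        (Primrec.const ((1, 1, 0) : Tr)))
      (gen_prim hp hq hU1 hU2 hS1 hS2)))
  exact h.of_eq fun x => (addT_eq (a x) (p x) (q x)).symm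

end

/-! ### The sums -/

theorem sums_prim : Primrec fun c : ℤ × List Tr => sums c.1 c.2 := by
  have h1 : Primrec₂ fun (c : (ℤ × List Tr) × (Tr × List Tr)) (q : Tr) => addT c.1.1 c.2.1 q :=
    addT_prim (Primrec.fst.comp (Primrec.fst.comp Primrec.fst))
      (Primrec.fst.comp (Primrec.snd.comp Primrec.fst)) Primrec.snd
  have h2 : Primrec₂ fun (c : ℤ × List Tr) (d : Tr × List Tr) =>
      d.2 ++ d.2.map (addT c.1 d.1) :=
    Primrec.list_append.comp (Primrec.snd.comp Primrec.snd)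
      (Primrec.list_map (Primrec.snd.comp Primrec.snd) h1)
  exact Primrec.list_foldr Primrec.snd (Primrec.const [((1, 1, 0) : Tr)]) h2

/-! ### The condition -/

theorem db_prim (pg : S_PG) : PrimrecPred fun c : ℤ × Tr => DB c.1 c.2 := by
  have hp : Primrec fun c : ℤ × Tr => c.2 := Primrec.snd
  have h1 : Primrec fun c : ℤ × Tr =>
      ((1, 0, -6 * c.2.1, 8 * c.2.2.1, -3 * c.2.1 ^ 2 - 4 * c.1 * c.2.2.2 ^ 4) : T5) :=
    Primrec.pair (Primrec.const 1) (Primrec.pair (Primrec.const 0)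
      (Primrec.pair (zmulc (-6) (p1 hp)) (Primrec.pair (zmulc 8 (p2 hp))
        (zsub (zmulc (-3) (zpow (p1 hp) 2)) (zmul (zmulc 4 Primrec.fst) (zpow (p3 hp) 4))))))
  exact pg.2.2.1.comp h1

theorem e1 (pg : S_PG) :
    PrimrecRel fun (e : Ent) (s : Tr) => EqvB (ofT e.1) s.1 (s.2.2 ^ 2) := by
  have h0 : Primrec fun x : Ent × Tr => ((x.1.1, (x.2.1, x.2.2.2 ^ 2)) : T5 × (ℤ × ℤ)) :=
    Primrec.pair (Primrec.fst.comp Primrec.fst)
      (Primrec.pair (p1 Primrec.snd) (zpow (p3 Primrec.snd) 2))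
  have h1 := PrimrecPred.comp pg.2.1 h0
  exact h1

theorem e2 (pg : S_PG) : PrimrecRel fun (L : List Ent) (s : Tr) =>
    ∃ e ∈ L, EqvB (ofT e.1) s.1 (s.2.2 ^ 2) :=
  (e1 pg).exists_mem_list

theorem e4 : PrimrecPred fun x : Tr × (ℤ × List Ent) => x.1.2.2 = 0 := zeq0 (p3 Primrec.fst)

theorem e5 (pg : S_PG) : PrimrecPred fun x : Tr × (ℤ × List Ent) => DB x.2.1 x.1 := by
  have h0 : Primrec fun x : Tr × (ℤ × List Ent) => (x.2.1, x.1) :=
    Primrec.pair (Primrec.fst.comp Primrec.snd) Primrec.fst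
  have h1 := PrimrecPred.comp (db_prim pg) h0
  exact h1

theorem e6 (pg : S_PG) : PrimrecPred fun x : Tr × (ℤ × List Ent) =>
    ∃ e ∈ x.2.2, EqvB (ofT e.1) x.1.1 (x.1.2.2 ^ 2) := by
  have h1 : Primrec fun x : Tr × (ℤ × List Ent) => x.2.2 := Primrec.snd.comp Primrec.snd
  have h2 : Primrec fun x : Tr × (ℤ × List Ent) => x.1 := Primrec.fst
  exact PrimrecRel.comp (e2 pg) h1 h2

theorem e3 (pg : S_PG) : PrimrecRel fun (s : Tr) (c : ℤ × List Ent) =>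
    s.2.2 = 0 ∨ DB c.1 s ∨ ∃ e ∈ c.2, EqvB (ofT e.1) s.1 (s.2.2 ^ 2) :=
  e4.or ((e5 pg).or (e6 pg))

theorem e7 (pg : S_PG) : PrimrecRel fun (l : List Tr) (c : ℤ × List Ent) =>
    ∀ s ∈ l, s.2.2 = 0 ∨ DB c.1 s ∨ ∃ e ∈ c.2, EqvB (ofT e.1) s.1 (s.2.2 ^ 2) :=
  (e3 pg).forall_mem_list

theorem t_PA (pg : S_PG) : S_PA := by
  have h7 : Primrec fun c : ℤ × (List Tr × List Ent) => (c.1, c.2.1) :=
    Primrec.pair Primrec.fst (Primrec.fst.comp Primrec.snd)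
  have h8 : Primrec fun c : ℤ × (List Tr × List Ent) => sums c.1 c.2.1 := by
    have h := Primrec.comp sums_prim h7
    exact h
  have h9 : Primrec fun c : ℤ × (List Tr × List Ent) => (c.1, c.2.2) :=
    Primrec.pair Primrec.fst (Primrec.snd.comp Primrec.snd)
  have h10 := PrimrecRel.comp (e7 pg) h8 h9
  exact h10

end Pool.Agent.H909.QR.PA
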