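import Pool.Agent.H447.QR.Stm2

/-!
# QR-FWG: the algorithm for an arbitrary function `ρ`
-/

set_option autoImplicit false

namespace Pool.Agent.H94.QR.FWG

open Pool.Agent.H447.QR

section tools

variable {α β : Type} [Primcodable α] [Primcodable β]

lemma cp_and {p q : α → Prop} (hp : ComputablePred p) (hq : ComputablePred q) :
    ComputablePred (fun a => p a ∧ q a) := by
  obtain ⟨f, hf, rfl⟩ := ComputablePred.computable_iff.1 hp
  obtain ⟨g, hg, rfl⟩ := ComputablePred.computable_iff.1 hq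
  refine ComputablePred.computable_iff.2 ⟨fun a => f a && g a, Primrec.and.to_comp.comp hf hg, ?_⟩
  funext a
  simp

lemma cp_or {p q : α → Prop} (hp : ComputablePred p) (hq : ComputablePred q) :
    ComputablePred (fun a => p a ∨ q a) := by
  obtain ⟨f, hf, rfl⟩ := ComputablePred.computable_iff.1 hp
  obtain ⟨g, hg, rfl⟩ := ComputablePred.computable_iff.1 hq
  refine ComputablePred.computable_iff.2 ⟨fun a => f a || g a, Primrec.or.to_comp.comp hf hg, ?_⟩
  funext a
  simp

lemma cp_comp {p : β → Prop} {f : α → β} (hp : ComputablePred p) (hf : Computable f) :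
    ComputablePred (fun a => p (f a)) := by
  obtain ⟨g, hg, rfl⟩ := ComputablePred.computable_iff.1 hp
  exact ComputablePred.computable_iff.2 ⟨fun a => g (f a), hg.comp hf, rfl⟩

lemma cp_eq [DecidableEq β] {f g : α → β} (hf : Computable f) (hg : Computable g) :
    ComputablePred (fun a => f a = g a) := by
  have h : ComputablePred (fun p : β × β => p.1 = p.2) :=
    PrimrecPred.computablePred (Primrec.eq (α := β))
  exact cp_comp h (hf.pair hg)

lemma pow2 : Primrec (fun n : ℕ => 2 ^ n) := by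
  have h : Primrec (fun n : ℕ => Nat.rec (motive := fun _ => ℕ) 1 (fun _ r => 2 * r) n) :=
    Primrec.nat_rec₁ 1 ((Primrec.nat_mul.comp (Primrec.const 2) Primrec.snd).to₂)
  refine h.of_eq fun n => ?_
  induction n with
  | zero => rfl
  | succ n ih =>
    rw [pow_succ, ← ih]
    exact mul_comm _ _

end tools

theorem t_FWG (pg : S_PG) (pv : S_PV) : S_FWG := by
  classical
  intro ρ K P F hP hF h0 h1 h2
  obtain ⟨-, -, -, -, gnrt⟩ := pg
  have gVL := pv.1
  have gBox := pv.2 K P hP
  -- the condition on the list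
  obtain ⟨Q, hQdef⟩ : ∃ Q : ℤ × ℤ → List Ent → Prop, Q = fun c L => VL c.1 c.2 L ∧
    BoxC K P c.1 c.2 L := ⟨_, rfl⟩
  have hQ' : ∀ c L, Q c L ↔ VL c.1 c.2 L ∧ BoxC K P c.1 c.2 L := fun c L => by rw [hQdef]
  have hQ : ComputablePred (fun c : (ℤ × ℤ) × List Ent => Q c.1 c.2) := by
    rw [hQdef]
    exact cp_and gVL.computablePred gBox
  -- decoding
  obtain ⟨dec, hdec⟩ : ∃ dec : ℕ → List Ent,
    dec = fun n => ((Encodable.decode n : Option (List Ent))).getD [] := ⟨_, rfl⟩
  have hdecp : Primrec dec := by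
    rw [hdec]
    exact Primrec.option_getD.comp Primrec.decode (Primrec.const [])
  have hdece : ∀ L : List Ent, dec (Encodable.encode L) = L := by
    intro L
    rw [hdec]
    simp
  obtain ⟨R, hRdef⟩ : ∃ R : ℤ × ℤ → ℕ → Prop, R = fun c n => ¬ F c ∨ Q c (dec n) := ⟨_, rfl⟩
  have hR' : ∀ c n, R c n ↔ ¬ F c ∨ Q c (dec n) := fun c n => by rw [hRdef]
  have hR : ComputablePred (fun c : (ℤ × ℤ) × ℕ => R c.1 c.2) := by
    rw [hRdef]
    apply cp_or
    · exact (cp_comp hF Computable.fst).not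
    · exact cp_comp (f := fun c : (ℤ × ℤ) × ℕ => (c.1, dec c.2)) hQ
        (Primrec.pair Primrec.fst (hdecp.comp Primrec.snd)).to_comp
  have hex : ∀ c, ∃ n, R c n := by
    intro c
    by_cases hFc : F c
    · obtain ⟨L, hL⟩ := h1 c hFc
      refine ⟨Encodable.encode L, ?_⟩
      rw [hR', hdece]
      right
      rw [hQ']
      exact hL
    · exact ⟨0, (hR' c 0).2 (Or.inl hFc)⟩
  have hfind : Computable (fun c => Nat.find (hex c)) := Computable.find hR hex
  obtain ⟨g, hg⟩ : ∃ g : ℤ × ℤ → List Ent, g = fun c => dec (Nat.find (hex c)) := ⟨_, rfl⟩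
  have hgc : Computable g := by
    rw [hg]
    exact hdecp.to_comp.comp hfind
  have hgQ : ∀ c, F c → (g c).length + 1 = 2 ^ ρ c * (1 + nrt c.1 c.2) := by
    intro c hFc
    have h := Nat.find_spec (hex c)
    rw [hR'] at h
    have h3 := h.resolve_left (fun h' => h' hFc)
    rw [hQ'] at h3
    rw [hg]
    exact h2 c _ hFc h3.1 h3.2
  -- the logarithm
  obtain ⟨S, hSdef⟩ : ∃ S : ℤ × ℤ → ℕ → Prop, S = fun c k => ¬ F c ∨
    (g c).length + 1 = 2 ^ k * (1 + nrt c.1 c.2) := ⟨_, rfl⟩
  have hS' : ∀ c k, S c k ↔ ¬ F c ∨ (g c).length + 1 = 2 ^ k * (1 + nrt c.1 c.2) := fun c k => by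
    rw [hSdef]
  have hS : ComputablePred (fun c : (ℤ × ℤ) × ℕ => S c.1 c.2) := by
    rw [hSdef]
    apply cp_or
    · exact (cp_comp hF Computable.fst).not
    · apply cp_eq
      · exact Computable.succ.comp (Computable.list_length.comp (hgc.comp Computable.fst))
      · have e1 : Computable (fun c : (ℤ × ℤ) × ℕ => 2 ^ c.2) :=
          (pow2.comp Primrec.snd).to_comp
        have e2 : Computable (fun c : (ℤ × ℤ) × ℕ => 1 + nrt c.1.1 c.1.2) :=
          (Primrec.nat_add.comp (Primrec.const 1) (gnrt.comp Primrec.fst)).to_comp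
        exact Primrec.nat_mul.to_comp.comp e1 e2
  have hexS : ∀ c, ∃ k, S c k := by
    intro c
    by_cases hFc : F c
    · exact ⟨ρ c, (hS' c _).2 (Or.inr (hgQ c hFc))⟩
    · exact ⟨0, (hS' c 0).2 (Or.inl hFc)⟩
  have hfindS : Computable (fun c => Nat.find (hexS c)) := Computable.find hS hexS
  refine hfindS.of_eq fun c => ?_
  by_cases hFc : F c
  · have h := Nat.find_spec (hexS c)
    rw [hS'] at h
    have h3 := h.resolve_left (fun h' => h' hFc)
    rw [hgQ c hFc] at h3
    have h4 := Nat.eq_of_mul_eq_mul_right (by omega) h3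
    exact (Nat.pow_right_injective (le_refl 2) h4).symm
  · rw [h0 c hFc, Nat.find_eq_zero]
    exact (hS' c 0).2 (Or.inl hFc)

end Pool.Agent.H94.QR.FWG
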